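import Pool.Agent.Y709.Trf
import Mathlib.RingTheory.Ideal.GoingUp
import Mathlib.FieldTheory.IsAlgClosed.AlgebraicClosure
import Mathlib.RingTheory.Localization.AtPrime.Basic
import Mathlib.NumberTheory.MulChar.Lemmas
import Mathlib.Analysis.Complex.Polynomial.Basic

/-!
A local ring of algebraic numbers with a given character of Teichmueller.
-/

set_option autoImplicit false

open Polynomial

namespace Pool.Agent.N876.KM

open Pool.Agent.Y709

theorem exists_ring {k₀ K : Type} [Field k₀] [Fintype k₀] [Field K] [IsAlgClosed K]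
    (τ : k₀ →+* K) {z : ℂ} (hz : IsPrimitiveRoot z (Fintype.card k₀ - 1)) (g : k₀ˣ)
    (hg : ∀ x, x ∈ Subgroup.zpowers g) :
    ∃ (R : Type) (_ : CommRing R) (_ : IsDomain R) (_ : CharZero R) (ι : R →+* ℂ) (π : R →+* K)
      (ω : MulChar k₀ R), Function.Injective ι ∧ (∀ r, π r ≠ 0 → IsUnit r) ∧
      (∀ u, π (ω u) = τ u) ∧ ι (ω g) = z ∧ ∀ x : ℂ, IsIntegral ℤ x → ∃ r, ι r = x := by
  classical
  set n := Fintype.card k₀ - 1 with hn'
  have hn : 0 < n := by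
    have := Fintype.one_lt_card (α := k₀)
    omega
  have hgn : IsPrimitiveRoot (g : k₀) n := by
    rw [IsPrimitiveRoot.coe_units_iff]
    have h1 : orderOf g = n := by
      rw [orderOf_eq_card_of_forall_mem_zpowers hg, Nat.card_eq_fintype_card, Fintype.card_units]
    rw [← h1]
    exact IsPrimitiveRoot.orderOf g
  let C := CR n
  let φ : C →+* k₀ := evR hn hgn
  have hφ : Function.Surjective φ := by
    intro u
    by_cases hu : u = 0
    · exact ⟨0, by rw [map_zero, hu]⟩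
    · obtain ⟨m, hm⟩ := (mem_powers_iff_mem_zpowers).2 (hg (Units.mk0 u hu))
      dsimp only at hm
      refine ⟨(AdjoinRoot.root _) ^ m, ?_⟩
      rw [map_pow, evR_root, ← Units.val_pow_eq_pow_val, hm, Units.val_mk0]
  let 𝔮 : Ideal C := RingHom.ker φ
  have h𝔮 : 𝔮.IsMaximal := RingHom.ker_isMaximal_of_surjective φ hφ
  let ev : C →+* ℂ := evR hn hz
  have hev : Function.Injective ev := evR_inj hn hz
  letI : Algebra C ℂ := ev.toAlgebra
  let 𝒪 := integralClosure C ℂ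
  have hC𝒪 : Function.Injective (algebraMap C 𝒪) := by
    intro x y h
    apply hev
    exact congrArg (algebraMap 𝒪 ℂ) h
  obtain ⟨𝔓, h𝔓max, h𝔓⟩ := Ideal.exists_ideal_over_maximal_of_isIntegral (S := 𝒪) 𝔮 (by
    rw [(RingHom.injective_iff_ker_eq_bot _).1 hC𝒪]
    exact bot_le)
  letI : Field (𝒪 ⧸ 𝔓) := Ideal.Quotient.field 𝔓
  let ρ : C →+* 𝒪 ⧸ 𝔓 := (Ideal.Quotient.mk 𝔓).comp (algebraMap C 𝒪)
  have hρ : RingHom.ker φ ≤ RingHom.ker ρ := by
    intro x hx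
    have hx' : x ∈ Ideal.comap (algebraMap C 𝒪) 𝔓 := by rw [h𝔓]; exact hx
    rw [RingHom.mem_ker]
    exact Ideal.Quotient.eq_zero_iff_mem.2 hx'
  let ψ : k₀ →+* 𝒪 ⧸ 𝔓 := φ.liftOfSurjective hφ ⟨ρ, hρ⟩
  have hψ : ∀ x, ψ (φ x) = ρ x := fun x => RingHom.liftOfRightInverse_comp_apply _ _ _ _ x
  letI : Algebra k₀ (𝒪 ⧸ 𝔓) := ψ.toAlgebra
  letI : Algebra k₀ K := τ.toAlgebra
  have halg : Algebra.IsAlgebraic k₀ (𝒪 ⧸ 𝔓) := by
    refine ⟨fun x => ?_⟩
    obtain ⟨y, rfl⟩ := Ideal.Quotient.mk_surjective x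
    have hy : IsIntegral C y := Algebra.IsIntegral.isIntegral y
    have h1 : IsIntegral k₀ (Ideal.Quotient.mk 𝔓 y) := by
      obtain ⟨P, hP, hP0⟩ := hy
      refine ⟨P.map φ, hP.map φ, ?_⟩
      rw [eval₂_map]
      have h2 : (algebraMap k₀ (𝒪 ⧸ 𝔓)).comp φ = (Ideal.Quotient.mk 𝔓).comp (algebraMap C 𝒪) :=
        RingHom.ext hψ
      rw [h2, ← hom_eval₂, hP0, map_zero]
    exact h1.isAlgebraic
  let lf : (𝒪 ⧸ 𝔓) →ₐ[k₀] K := IsAlgClosed.lift
  let π₀ : 𝒪 →+* K := (lf : (𝒪 ⧸ 𝔓) →+* K).comp (Ideal.Quotient.mk 𝔓)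
  have hπ₀ : ∀ y : 𝒪, π₀ y ≠ 0 ↔ y ∉ 𝔓 := by
    intro y
    rw [not_iff_not]
    show (lf : (𝒪 ⧸ 𝔓) →+* K) (Ideal.Quotient.mk 𝔓 y) = 0 ↔ _
    rw [map_eq_zero, Ideal.Quotient.eq_zero_iff_mem]
  have h𝔓p : 𝔓.IsPrime := h𝔓max.isPrime
  let R := Localization.AtPrime 𝔓
  have hu1 : ∀ y : 𝔓.primeCompl, IsUnit (π₀ (y : 𝒪)) := fun y =>
    isUnit_iff_ne_zero.2 ((hπ₀ y).2 y.2)
  have hu2 : ∀ y : 𝔓.primeCompl, IsUnit ((algebraMap 𝒪 ℂ) (y : 𝒪)) := by
    intro y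
    refine isUnit_iff_ne_zero.2 fun h => y.2 ?_
    have h1 : (y : 𝒪) = 0 := Subtype.ext h
    rw [h1]
    exact 𝔓.zero_mem
  let π : R →+* K := IsLocalization.lift (M := 𝔓.primeCompl) (S := R) hu1
  let ι : R →+* ℂ := IsLocalization.lift (M := 𝔓.primeCompl) (S := R) hu2
  have hπa : ∀ y : 𝒪, π (algebraMap 𝒪 R y) = π₀ y := fun y => IsLocalization.lift_eq hu1 y
  have hιa : ∀ y : 𝒪, ι (algebraMap 𝒪 R y) = algebraMap 𝒪 ℂ y := fun y =>
    IsLocalization.lift_eq hu2 y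
  have hιinj : Function.Injective ι := by
    rw [injective_iff_map_eq_zero]
    intro r hr
    obtain ⟨x, s, rfl⟩ := IsLocalization.exists_mk'_eq 𝔓.primeCompl r
    have h1 : ι (IsLocalization.mk' R x s) * ι (algebraMap 𝒪 R s) = ι (algebraMap 𝒪 R x) := by
      rw [← map_mul, IsLocalization.mk'_spec]
    rw [hr, zero_mul, hιa] at h1
    have h2 : x = 0 := Subtype.ext h1.symm
    rw [h2, IsLocalization.mk'_zero]
  have hdom : IsDomain R := hιinj.isDomain ι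
  have hcz : CharZero R := ι.charZero
  have hunit : ∀ r, π r ≠ 0 → IsUnit r := by
    intro r hr
    obtain ⟨x, s, rfl⟩ := IsLocalization.exists_mk'_eq 𝔓.primeCompl r
    have h1 : π (IsLocalization.mk' R x s) * π (algebraMap 𝒪 R s) = π (algebraMap 𝒪 R x) := by
      rw [← map_mul, IsLocalization.mk'_spec]
    have h2 : π₀ x ≠ 0 := by
      rw [← hπa, ← h1]
      refine mul_ne_zero hr ?_
      rw [hπa]
      exact (hu1 s).ne_zero
    have h3 : IsUnit (algebraMap 𝒪 R x) :=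
      IsLocalization.map_units R (⟨x, (hπ₀ x).1 h2⟩ : 𝔓.primeCompl)
    have h4 := IsLocalization.mk'_spec R x s
    rw [← h4] at h3
    exact isUnit_of_mul_isUnit_left h3
  -- the character
  have hroot : (AdjoinRoot.root (cyclotomic n ℤ) : C) ^ n = 1 := by
    apply hev
    rw [map_pow, evR_root, hz.pow_eq_one, map_one]
  let μ₀ : R := algebraMap 𝒪 R (algebraMap C 𝒪 (AdjoinRoot.root (cyclotomic n ℤ)))
  have hμ₀ : μ₀ ^ n = 1 := by
    show (algebraMap 𝒪 R (algebraMap C 𝒪 _)) ^ n = 1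
    rw [← map_pow, ← map_pow, hroot, map_one, map_one]
  let μ : Rˣ := Units.ofPowEqOne μ₀ n hμ₀ hn.ne'
  have hμ : μ ∈ rootsOfUnity (Fintype.card k₀ˣ) R := by
    rw [mem_rootsOfUnity, Fintype.card_units]
    exact Units.pow_ofPowEqOne hμ₀ hn.ne'
  let ω : MulChar k₀ R := MulChar.ofRootOfUnity hμ hg
  have hωg : ω g = μ₀ := MulChar.ofRootOfUnity_spec hμ hg
  have hπg : π (ω g) = τ g := by
    rw [hωg]
    show π (algebraMap 𝒪 R (algebraMap C 𝒪 _)) = _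
    rw [hπa]
    show lf (ρ _) = _
    rw [← hψ]
    have h1 : lf (ψ (φ (AdjoinRoot.root (cyclotomic n ℤ)))) =
      algebraMap k₀ K (φ (AdjoinRoot.root (cyclotomic n ℤ))) := lf.commutes _
    rw [h1, evR_root]
    rfl
  refine ⟨R, inferInstance, hdom, hcz, ι, π, ω, hιinj, hunit, ?_, ?_, ?_⟩
  · intro u
    by_cases hu : u = 0
    · rw [hu, MulChar.map_zero, map_zero, map_zero]
    · obtain ⟨m, hm⟩ := (mem_powers_iff_mem_zpowers).2 (hg (Units.mk0 u hu))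
      dsimp only at hm
      have hm' : u = (g : k₀) ^ m := by
        rw [← Units.val_pow_eq_pow_val, hm, Units.val_mk0]
      rw [hm', map_pow, map_pow, map_pow, hπg]
  · rw [hωg]
    show ι (algebraMap 𝒪 R (algebraMap C 𝒪 _)) = _
    rw [hιa]
    exact evR_root hn hz
  · intro x hx
    have h1 : IsIntegral C x := hx.tower_top
    exact ⟨algebraMap 𝒪 R ⟨x, h1⟩, hιa _⟩

end Pool.Agent.N876.KM
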