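import Pool.Agent.N876.KM.Glob
import Pool.Agent.N876.KM.Ring
import Mathlib.NumberTheory.MulChar.Duality
import Mathlib.Data.ZMod.Units
import Mathlib.RingTheory.RootsOfUnity.Complex

/-!
Characters of order `N` and Teichmueller characters.
-/

set_option autoImplicit false
set_option linter.unusedSectionVars false

open Polynomial Module

namespace Pool.Agent.N876.KM

open Pool.Agent.W313.Hyp Pool.Agent.W343.BSD Pool.Agent.Y709 Pool.Agent.Y709.Gen
open Pool.Agent.Y709.Lay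

section char

variable {k₀ k : Type} [Field k₀] [Fintype k₀] [Field k] [Finite k] [Algebra k₀ k] {q N : ℕ}

/-- a character of order `N` is a composite with the norm -/
theorem exists_charN (hk₀ : Fintype.card k₀ = q) (hN : N ∣ q - 1) (χ' : MulChar k ℂ)
    (h : orderOf χ' = N) :
    ∃ χ : MulChar k₀ ℂ, orderOf χ = N ∧ ∀ u : k, χ' u = χ (Algebra.norm k₀ u) := by
  classical
  obtain ⟨g, hg⟩ := IsCyclic.exists_generator (α := kˣ)
  have hNs := FiniteField.unitsMap_norm_surjective k₀ k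
  set a : k₀ˣ := Units.map (Algebra.norm k₀ (S := k)) g with ha
  have hag : ∀ x, x ∈ Subgroup.zpowers a := by
    intro x
    obtain ⟨y, rfl⟩ := hNs x
    obtain ⟨n, hn⟩ := hg y
    refine ⟨n, ?_⟩
    dsimp only at hn ⊢
    rw [ha, ← map_zpow, hn]
  let ω : ℂˣ := Units.map (χ' : k →* ℂ) g
  have hω : ω ∈ rootsOfUnity (Fintype.card k₀ˣ) ℂ := by
    rw [mem_rootsOfUnity, Fintype.card_units, hk₀]
    apply Units.ext
    obtain ⟨c, hc⟩ := hN
    have h1 : χ' ^ (q - 1) = 1 := by rw [hc, pow_mul, ← h, pow_orderOf_eq_one χ', one_pow]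
    have h2 := congrArg (fun ψ : MulChar k ℂ => ψ (g : k)) h1
    simp only [MulChar.pow_apply_coe, MulChar.one_apply_coe] at h2
    exact h2
  let χ : MulChar k₀ ℂ := MulChar.ofRootOfUnity hω hag
  have hχa : χ (Algebra.norm k₀ (g : k)) = χ' (g : k) := by
    have h1 := MulChar.ofRootOfUnity_spec hω hag
    exact h1
  have hcomp : ∀ u : k, χ' u = χ (Algebra.norm k₀ u) := by
    intro u
    by_cases hu : u = 0
    · rw [hu, MulChar.map_zero, Algebra.norm_zero, MulChar.map_zero]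
    · obtain ⟨n, hn⟩ := (mem_powers_iff_mem_zpowers).2 (hg (Units.mk0 u hu))
      dsimp only at hn
      have hn' : u = (g : k) ^ n := by
        rw [← Units.val_pow_eq_pow_val, hn, Units.val_mk0]
      rw [hn', map_pow, map_pow, map_pow, hχa]
  refine ⟨χ, ?_, hcomp⟩
  rw [← h, orderOf_eq_orderOf_iff]
  intro n
  constructor
  · intro h1
    refine MulChar.ext fun u => ?_
    have h2 := congrArg (fun ψ : MulChar k₀ ℂ =>
      ψ ((Units.map (Algebra.norm k₀ (S := k)) u : k₀ˣ) : k₀)) h1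
    simp only [MulChar.pow_apply_coe, MulChar.one_apply_coe] at h2 ⊢
    rw [hcomp]
    exact h2
  · intro h1
    refine MulChar.ext fun u => ?_
    obtain ⟨y, rfl⟩ := hNs u
    have h2 := congrArg (fun ψ : MulChar k ℂ => ψ (y : k)) h1
    simp only [MulChar.pow_apply_coe, MulChar.one_apply_coe] at h2 ⊢
    rw [hcomp] at h2
    exact h2

/-- a root of unity with a given power -/
theorem exists_root {j : ℕ} (hq : 1 < q) (hN : N ∣ q - 1) (hj : j.Coprime N) {ξ : ℂ}
    (hξ : IsPrimitiveRoot ξ N) :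
    ∃ z : ℂ, IsPrimitiveRoot z (q - 1) ∧ z ^ (j * ((q - 1) / N)) = ξ := by
  have hq0 : q - 1 ≠ 0 := by omega
  have hnz : NeZero (q - 1) := ⟨hq0⟩
  have hN0 : N ≠ 0 := by
    rintro rfl
    exact hq0 (Nat.eq_zero_of_zero_dvd hN)
  have hNz : NeZero N := ⟨hN0⟩
  set z₀ : ℂ := Complex.exp (2 * Real.pi * Complex.I / ((q - 1 : ℕ) : ℂ)) with hz₀
  have h0 : IsPrimitiveRoot z₀ (q - 1) := Complex.isPrimitiveRoot_exp (q - 1) hq0
  obtain ⟨c, hc⟩ := hN
  have hdiv : (q - 1) / N = c := by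
    rw [hc, Nat.mul_div_cancel_left _ (Nat.pos_of_ne_zero hN0)]
  have h1 : IsPrimitiveRoot (z₀ ^ c) N := by
    refine IsPrimitiveRoot.pow (Nat.pos_of_ne_zero hq0) h0 ?_
    rw [hc, mul_comm]
  obtain ⟨i, _, hi, hiξ⟩ := (h1.isPrimitiveRoot_iff).1 hξ
  -- the exponent
  let uj : (ZMod N)ˣ := ZMod.unitOfCoprime j hj
  let ui : (ZMod N)ˣ := ZMod.unitOfCoprime i hi
  obtain ⟨w, hw⟩ := ZMod.unitsMap_surjective (Dvd.intro c hc.symm : N ∣ q - 1) (ui * uj⁻¹)
  have hw1 : ((ZMod.val (w : ZMod (q - 1)) : ℕ) : ZMod N) * (j : ZMod N) = (i : ZMod N) := by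
    have h2 : ((ZMod.val (w : ZMod (q - 1)) : ℕ) : ZMod N) = ((ZMod.unitsMap
        (Dvd.intro c hc.symm : N ∣ q - 1) w : (ZMod N)ˣ) : ZMod N) := by
      rw [ZMod.unitsMap_val, ZMod.natCast_val]
    have h3 : (uj : ZMod N) = (j : ZMod N) := ZMod.coe_unitOfCoprime j hj
    have h4 : (ui : ZMod N) = (i : ZMod N) := ZMod.coe_unitOfCoprime i hi
    rw [h2, hw, ← h3, ← h4, ← Units.val_mul, inv_mul_cancel_right]
  refine ⟨z₀ ^ (ZMod.val (w : ZMod (q - 1))), ?_, ?_⟩
  · exact h0.pow_of_coprime _ (ZMod.val_coe_unit_coprime w)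
  · rw [hdiv, ← hiξ, ← pow_mul]
    have h5 : (z₀ ^ c) ^ (ZMod.val (w : ZMod (q - 1)) * j) = (z₀ ^ c) ^ i := by
      have h6 : (ZMod.val (w : ZMod (q - 1)) * j) ≡ i [MOD N] := by
        rw [← ZMod.natCast_eq_natCast_iff, Nat.cast_mul]
        exact hw1
      have h7 : (z₀ ^ c) ^ (ZMod.val (w : ZMod (q - 1)) * j % N) = (z₀ ^ c) ^ (i % N) :=
        congrArg (fun e => (z₀ ^ c) ^ e) h6
      have h8 : orderOf (z₀ ^ c) = N := h1.eq_orderOf.symm
      rw [← pow_mod_orderOf (z₀ ^ c) (ZMod.val (w : ZMod (q - 1)) * j),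
        ← pow_mod_orderOf (z₀ ^ c) i, h8]
      exact h7
    rw [← h5, ← pow_mul]
    congr 1
    ring

end char

section rel

variable {k₀ : Type} [Field k₀] [Fintype k₀] {q N : ℕ}

/-- the character of order `N` as a power of the character of order `q - 1` -/
theorem char_rel (hk₀ : Fintype.card k₀ = q) (hN : N ∣ q - 1) (j : ℕ)
    (χ ω : MulChar k₀ ℂ) (g : k₀ˣ) (hg : ∀ x, x ∈ Subgroup.zpowers g)
    (h : χ g = (ω g) ^ (j * ((q - 1) / N))) (hj : j.Coprime N) (u : k₀) {a : ℕ} (ha : ¬ N ∣ a) :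
    χ u ^ a = ω u ^ ((j * a % N) * ((q - 1) / N)) := by
  have hq1 : 1 < q := by
    rw [← hk₀]
    exact Fintype.one_lt_card
  obtain ⟨c, hc⟩ := hN
  have hN0 : 0 < N := Nat.pos_of_ne_zero (by
    rintro rfl
    omega)
  have hc0 : 0 < c := Nat.pos_of_ne_zero (by
    rintro rfl
    omega)
  have hdiv : (q - 1) / N = c := by
    rw [hc, Nat.mul_div_cancel_left _ hN0]
  rw [hdiv] at h ⊢
  have ha0 : a ≠ 0 := by
    rintro rfl
    exact ha (dvd_zero _)
  have hja : j * a % N ≠ 0 := by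
    intro h1
    exact ha ((Nat.Coprime.dvd_mul_left hj.symm).1 (Nat.dvd_of_mod_eq_zero h1))
  by_cases hu : u = 0
  · rw [hu, MulChar.map_zero, MulChar.map_zero, zero_pow ha0, zero_pow]
    exact Nat.mul_ne_zero hja hc0.ne'
  · obtain ⟨n, hn⟩ := (mem_powers_iff_mem_zpowers).2 (hg (Units.mk0 u hu))
    dsimp only at hn
    have hn' : u = (g : k₀) ^ n := by
      rw [← Units.val_pow_eq_pow_val, hn, Units.val_mk0]
    have h1 : χ u = ω u ^ (j * c) := by
      rw [hn', map_pow, map_pow, h, ← pow_mul, ← pow_mul, mul_comm]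
    have h2 : (ω u ^ c) ^ N = 1 := by
      rw [← pow_mul, mul_comm, ← hc, ← map_pow, ← hk₀, FiniteField.pow_card_sub_one_eq_one u hu,
        map_one]
    have h3 : ∀ e, (ω u ^ c) ^ (e % N) = (ω u ^ c) ^ e := by
      intro e
      conv_rhs => rw [← Nat.mod_add_div e N, pow_add, pow_mul, h2, one_pow, mul_one]
    rw [h1, ← pow_mul]
    calc ω u ^ (j * c * a) = (ω u ^ c) ^ (j * a) := by
          rw [← pow_mul]
          congr 1
          ring
      _ = (ω u ^ c) ^ (j * a % N) := (h3 _).symm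
      _ = _ := by
          rw [← pow_mul]
          congr 1
          ring

end rel

section ext

variable {k₀ k : Type} [Field k₀] [Fintype k₀] [Field k] [Finite k] [Algebra k₀ k] {q N : ℕ}

/-- the relation over an extension -/
theorem norm_rel {F : Type} [Field F] [Algebra k F] [Algebra k₀ F] [IsScalarTower k₀ k F]
    [FiniteDimensional k F] {χ' : MulChar k ℂ} {χ ω : MulChar k₀ ℂ}
    (h : ∀ u : k, χ' u = χ (Algebra.norm k₀ u)) {j : ℕ}
    (hrel : ∀ (u : k₀) (a : ℕ), ¬ N ∣ a → χ u ^ a = ω u ^ ((j * a % N) * ((q - 1) / N)))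
    (x : F) {a : ℕ} (ha : ¬ N ∣ a) :
    χ' (Algebra.norm k x) ^ a = ω (Algebra.norm k₀ x) ^ ((j * a % N) * ((q - 1) / N)) := by
  rw [h, Algebra.norm_norm, hrel _ _ ha]

/-- the relation of the products -/
theorem prod_rel {F : Type} [Field F] [Algebra k F] [Algebra k₀ F] [IsScalarTower k₀ k F]
    [FiniteDimensional k F] {χ' : MulChar k ℂ} {χ ω : MulChar k₀ ℂ}
    (h : ∀ u : k, χ' u = χ (Algebra.norm k₀ u)) {j : ℕ}
    (hrel : ∀ (u : k₀) (a : ℕ), ¬ N ∣ a → χ u ^ a = ω u ^ ((j * a % N) * ((q - 1) / N)))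
    {ι : Type} [Fintype ι] (x : ι → F) (a : ι → ℕ) (ha : ∀ i, ¬ N ∣ a i) :
    χ' (Algebra.norm k (∏ i, x i ^ a i)) =
      ω (Algebra.norm k₀ (∏ i, x i ^ ((j * a i % N) * ((q - 1) / N)))) := by
  rw [map_prod, map_prod, map_prod, map_prod]
  refine Finset.prod_congr rfl fun i _ => ?_
  rw [map_pow, map_pow, map_pow, map_pow]
  exact norm_rel h hrel (x i) (ha i)

end ext

end Pool.Agent.N876.KM
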