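import Pool.Agent.N876.KM.FinG
import Pool.Agent.Y709.IrrS.Count

/-!
The exceptional twists have a fixed vector.
-/

set_option autoImplicit false
set_option linter.unusedSectionVars false

open Polynomial Module

namespace Pool.Agent.N876.KM

open Pool.Agent.W313.Hyp Pool.Agent.W343.BSD Pool.Agent.Y709 Pool.Agent.Y709.Gen
open Pool.Agent.Y709.Lay

open Classical in
/-- a twist with too many zeros over some covering has a fixed vector -/
theorem fixed_of_exc {k : Type} [Field k] [Fintype k] {p f₀ s q g r d : ℕ} [hp : Fact p.Prime]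
    [CharP k p] (hf₀ : 0 < f₀) (hs : 0 < s) (hq : q = p ^ f₀) (hk : Fintype.card k = q ^ s)
    (hr : 1 ≤ r) (D B : k[X]) (b : Fin (r + 1) → k[X]) (m : Fin (r + 1) → ℕ)
    (hm : ∀ i, 0 < m i) (hb : ∀ i, (b i).natDegree ≤ d) (hmq : ∑ i, m i < q - 1)
    (hmp : ∑ i, m i < p)
    {O : Type} [CommRing O] [Algebra k[X] O] (G : Type) [Group G] [Finite G]
    [MulSemiringAction G O] [IsGaloisGroup G k[X] O] [FaithfulSMul k[X] O]
    (hG : Nat.card G = p ^ g) (S : Finset (MaximalSpectrum k[X])) (e : MaximalSpectrum k[X] → ℕ)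
    (he : ∀ (𝔪 : MaximalSpectrum O) (𝔭 : MaximalSpectrum k[X]),
      𝔪.asIdeal.comap (algebraMap k[X] O) = 𝔭.asIdeal → Nat.card (𝔪.asIdeal.inertia G) = e 𝔭)
    (heS : ∀ 𝔭, 𝔭 ∉ S → (D * B) ∉ 𝔭.asIdeal → e 𝔭 = 1)
    (χ' : MulChar k ℂ) (hχ' : orderOf χ' = q - 1) (M : Multiset ℂ)
    (hMp : ∀ z ∈ M, ∃ n : ℕ, z ^ p ^ n = 1) (H : ℂ[X])
    (hH : LO O χ' (D * B) b m =
      (((M.map fun z => 1 - C ((Nat.card k : ℂ) * z) * X).prod * H : ℂ[X]) : PowerSeries ℂ))
    (hlt : ∑ 𝔭 ∈ S, (if (D * B) ∈ 𝔭.asIdeal ∨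
      NonAn k p (q - 1) (D * B) b m 𝔭 then 0 else (Nat.card G - Nat.card G / e 𝔭) *
        (p ^ padicValNat p (finrank k (RO k 𝔭)) *
          ((Set.range fun i => vO k 𝔭 (b i)).ncard - 1))) < Multiset.card M) :
    ∃ w : Fin r → k[X], w ≠ 0 ∧ ∀ i, cart q (D * ∑ j, minor B b m i j * w j) =
      (w i).map (iterateFrobenius k p f₀) := by
  by_contra hno
  push Not at hno
  have hm2 : 2 ≤ ∑ i, m i := by
    have h1 : ∑ i : Fin (r + 1), 1 ≤ ∑ i, m i := Finset.sum_le_sum fun i _ => hm i
    rw [Finset.sum_const, Finset.card_univ, smul_eq_mul, mul_one, Fintype.card_fin] at h1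
    omega
  have hq1 : 0 < q - 1 := by omega
  have hself : (q - 1) / (q - 1) = 1 := Nat.div_self hq1
  have hmle : ∀ i, m i < q - 1 := fun i =>
    (Finset.single_le_sum (f := m) (fun _ _ => Nat.zero_le _) (Finset.mem_univ i)).trans_lt hmq
  have e1 : ∀ x, x < q - 1 → (1 * x % (q - 1)) * ((q - 1) / (q - 1)) = x := by
    intro x hx
    rw [hself, mul_one, one_mul, Nat.mod_eq_of_lt hx]
  have e2 : (∏ _l : Unit, (D * B) ^ ((1 * 1 % (q - 1)) * ((q - 1) / (q - 1)))) = D * B := by
    rw [e1 1 (by omega), Finset.prod_const, Finset.card_univ, Fintype.card_unit, pow_one, pow_one]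
  have e3 : (∏ _l : Unit, (D * B) ^ 1) = D * B := by
    rw [Finset.prod_const, Finset.card_univ, Fintype.card_unit, pow_one, pow_one]
  have e4 : (fun i => (1 * m i % (q - 1)) * ((q - 1) / (q - 1))) = m := by
    funext i
    exact e1 _ (hmle i)
  have e5 : ∑ i, (1 * m i % (q - 1)) = ∑ i, m i := by
    refine Finset.sum_congr rfl fun i _ => ?_
    rw [one_mul, Nat.mod_eq_of_lt (hmle i)]
  have hmain := mainG (k := k) (p := p) (N := q - 1) (j := 1) (D := d) (Λ := Unit) hf₀ hs hq hk
    dvd_rfl (Nat.coprime_one_left _) (by rw [Fintype.card_fin]; omega) (fun _ => D * B)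
    (fun _ => 1) (fun _ h => by
      have := Nat.le_of_dvd one_pos h
      omega) b m (fun i h => by
      have h1 := Nat.le_of_dvd (hm i) h
      have h2 := hmle i
      omega) hb (by rw [e5]; exact hmq) 0 (by
      intro w hw
      rw [e2, e4] at hw
      -- the fixed vector of the minor
      have hw00 : w 0 = 0 := by
        have h8 : ∑ j, MG (D * B) b m 0 0 j * w j = 0 := by
          refine Finset.sum_eq_zero fun j _ => ?_
          unfold MG
          rw [Matrix.of_apply, phi_row k _ _ rfl, mul_zero, zero_mul]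
        have h9 := hw 0
        rw [h8, cart_zero (by omega)] at h9
        exact (Polynomial.map_eq_zero _).1 h9.symm
      by_contra hne
      obtain ⟨i, hi⟩ := hno (fun i => w i.succ) (by
        intro h9
        apply hne
        funext i
        refine Fin.cases hw00 (fun i => ?_) i
        exact congrFun h9 i)
      apply hi
      refine Eq.trans ?_ (hw i.succ)
      have h10 : D * ∑ j : Fin r, minor B b m i j * w j.succ =
          ∑ j : Fin (r + 1), MG (D * B) b m 0 i.succ j * w j := by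
        rw [Fin.sum_univ_succ, hw00, mul_zero, zero_add, Finset.mul_sum]
        refine Finset.sum_congr rfl fun j _ => ?_
        unfold minor MG
        rw [Matrix.of_apply, Matrix.of_apply]
        ring
      rw [h10]) (by rw [e5, hself, mul_one]; exact hmp) G hG S e he (by
      rw [e3]
      exact heS) χ' hχ' M hMp H (by
      rw [e3]
      exact hH)
  rw [e3] at hmain
  omega

end Pool.Agent.N876.KM
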