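import Mathlib.FieldTheory.Separable
import Mathlib.Algebra.Polynomial.Expand
import Mathlib.RingTheory.PowerSeries.Trunc
import Mathlib.RingTheory.PowerSeries.Inverse
import Mathlib.RingTheory.PowerSeries.Substitution
import Mathlib.NumberTheory.Padics.PadicVal.Basic

/-!
Divisibility and multiplicities of zeros.
-/

set_option autoImplicit false

open Polynomial

namespace Pool.Agent.N876.KM

section div

variable {R A K : Type} [CommRing R] [IsDomain R] [CommRing A]
  [Field K] (ι : R →+* A) (hι : Function.Injective ι) (π : R →+* K)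

/-- the product of the factors of the zeros -/
noncomputable def zprod {R : Type} [CommRing R] (q : R) (M : Multiset R) : R[X] :=
  (M.map fun z => 1 - C (q * z) * X).prod

theorem coe_zprod {R : Type} [CommRing R] (q : R) (M : Multiset R) :
    ((zprod q M : R[X]) : PowerSeries R) =
      (M.map fun z => 1 - PowerSeries.C (q * z) * PowerSeries.X).prod := by
  unfold zprod
  rw [← Polynomial.coeToPowerSeries.ringHom_apply, map_multiset_prod, Multiset.map_map]
  congr 1
  refine Multiset.map_congr rfl fun z _ => ?_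
  rw [Function.comp_apply, Polynomial.coeToPowerSeries.ringHom_apply, Polynomial.coe_sub,
    Polynomial.coe_one, Polynomial.coe_mul, Polynomial.coe_C, Polynomial.coe_X]

theorem map_zprod {R A : Type} [CommRing R] [CommRing A] (ι : R →+* A) (q : R) (M : Multiset R) :
    (zprod q M).map ι = zprod (ι q) (M.map ι) := by
  unfold zprod
  rw [← coe_mapRingHom, map_multiset_prod, Multiset.map_map, Multiset.map_map]
  congr 1
  refine Multiset.map_congr rfl fun z _ => ?_
  rw [Function.comp_apply, Function.comp_apply, coe_mapRingHom, Polynomial.map_sub,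
    Polynomial.map_one, Polynomial.map_mul, Polynomial.map_C, Polynomial.map_X, map_mul]

theorem rescale_zprod {R : Type} [CommRing R] (q : R) (M : Multiset R) :
    PowerSeries.rescale q ((zprod 1 M : R[X]) : PowerSeries R) =
      ((zprod q M : R[X]) : PowerSeries R) := by
  rw [coe_zprod, coe_zprod, map_multiset_prod, Multiset.map_map]
  congr 1
  refine Multiset.map_congr rfl fun z _ => ?_
  rw [Function.comp_apply, map_sub, map_one, map_mul, PowerSeries.rescale_X, one_mul]
  have h3 : PowerSeries.rescale q (PowerSeries.C z) = PowerSeries.C z := by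
    ext n
    rw [PowerSeries.coeff_rescale, PowerSeries.coeff_C]
    split_ifs with h
    · rw [h, pow_zero, one_mul]
    · rw [mul_zero]
  rw [h3, map_mul]
  ring

theorem constantCoeff_zprod {R : Type} [CommRing R] (q : R) (M : Multiset R) :
    PowerSeries.constantCoeff ((zprod q M : R[X]) : PowerSeries R) = 1 := by
  rw [coe_zprod, map_multiset_prod, Multiset.map_map]
  refine Multiset.prod_eq_one ?_
  intro x hx
  obtain ⟨z, _, rfl⟩ := Multiset.mem_map.1 hx
  rw [Function.comp_apply, map_sub, map_one, map_mul, PowerSeries.constantCoeff_X, mul_zero,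
    sub_zero]

include hι in
/-- **the zeros of the function give zeros of the reduction** -/
theorem zprod_dvd {q : R} (hq : q ≠ 0) {LF L : PowerSeries R} {Δ : K[X]}
    (h1 : LF * PowerSeries.rescale q L = 1)
    (h2 : PowerSeries.map π L * (Δ : PowerSeries K) = 1) (M : Multiset R) (G : A[X])
    (hG : PowerSeries.map ι LF = (((zprod q M).map ι * G : A[X]) : PowerSeries A)) :
    zprod 1 (M.map π) ∣ Δ := by
  have hLu : IsUnit (PowerSeries.constantCoeff L) := by
    have h3 := congrArg PowerSeries.constantCoeff h1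
    rw [map_mul, map_one] at h3
    have h4 : PowerSeries.constantCoeff (PowerSeries.rescale q L) =
        PowerSeries.constantCoeff L := by
      rw [← PowerSeries.coeff_zero_eq_constantCoeff_apply, PowerSeries.coeff_rescale, pow_zero,
        one_mul, PowerSeries.coeff_zero_eq_constantCoeff_apply]
    rw [h4] at h3
    exact IsUnit.of_mul_eq_one _ (by rw [mul_comm]; exact h3)
  have hu2 : IsUnit (((zprod 1 M : R[X]) : PowerSeries R) * L) := by
    rw [PowerSeries.isUnit_iff_constantCoeff, map_mul, constantCoeff_zprod, one_mul]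
    exact hLu
  obtain ⟨H, hH⟩ := hu2.exists_right_inv
  have hH1 := congrArg (PowerSeries.rescale q) hH
  rw [map_mul, map_mul, map_one, rescale_zprod] at hH1
  have hHG : PowerSeries.map ι (PowerSeries.rescale q H) = (G : PowerSeries A) := by
    have h3 : (G : PowerSeries A) * PowerSeries.map ι (((zprod q M : R[X]) : PowerSeries R) *
        PowerSeries.rescale q L) = 1 := by
      have h4 := congrArg (PowerSeries.map ι) h1
      rw [map_mul, hG, Polynomial.coe_mul, Polynomial.polynomial_map_coe, map_one] at h4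
      rw [map_mul]
      exact Eq.trans (by ring) h4
    have h5 := congrArg (PowerSeries.map ι) hH1
    rw [map_mul, map_one] at h5
    calc PowerSeries.map ι (PowerSeries.rescale q H) = (G : PowerSeries A) *
          PowerSeries.map ι (((zprod q M : R[X]) : PowerSeries R) *
            PowerSeries.rescale q L) * PowerSeries.map ι (PowerSeries.rescale q H) := by
          rw [h3, one_mul]
      _ = (G : PowerSeries A) * (PowerSeries.map ι (((zprod q M : R[X]) : PowerSeries R) *
            PowerSeries.rescale q L) * PowerSeries.map ι (PowerSeries.rescale q H)) := by ring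
      _ = _ := by rw [h5, mul_one]
  have hHn : ∀ n, G.natDegree < n → PowerSeries.coeff n H = 0 := by
    intro n hn
    have h3 := congrArg (PowerSeries.coeff n) hHG
    rw [PowerSeries.coeff_map, PowerSeries.coeff_rescale, Polynomial.coeff_coe,
      coeff_eq_zero_of_natDegree_lt hn] at h3
    have h4 : q ^ n * PowerSeries.coeff n H = 0 := hι (by rw [h3, map_zero])
    exact (mul_eq_zero.1 h4).resolve_left (pow_ne_zero _ hq)
  let H' : R[X] := PowerSeries.trunc (G.natDegree + 1) H
  have hH' : (H' : PowerSeries R) = H := by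
    ext n
    rw [Polynomial.coeff_coe, PowerSeries.coeff_trunc]
    split_ifs with h
    · rfl
    · rw [hHn n (by omega)]
  rw [← hH'] at hH
  have h3 := congrArg (PowerSeries.map π) hH
  rw [map_mul, map_mul, map_one, ← Polynomial.polynomial_map_coe,
    ← Polynomial.polynomial_map_coe, map_zprod, map_one] at h3
  have h4 : (Δ : PowerSeries K) = ((zprod 1 (M.map π) * (H'.map π) : K[X]) : PowerSeries K) := by
    rw [Polynomial.coe_mul]
    calc (Δ : PowerSeries K) = (Δ : PowerSeries K) *
          (((zprod 1 (M.map π) : K[X]) : PowerSeries K) * PowerSeries.map π L *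
          ((H'.map π : K[X]) : PowerSeries K)) := by rw [h3, mul_one]
      _ = (PowerSeries.map π L * (Δ : PowerSeries K)) *
          (((zprod 1 (M.map π) : K[X]) : PowerSeries K) *
            ((H'.map π : K[X]) : PowerSeries K)) := by ring
      _ = _ := by rw [h2, one_mul]
  exact ⟨_, Polynomial.coe_injective K h4⟩

end div

section mult

variable {K : Type} [Field K]

theorem natDegree_zprod (M : Multiset K) (h : ∀ z ∈ M, z ≠ 0) :
    (zprod 1 M).natDegree = Multiset.card M := by
  unfold zprod
  have h1 : ∀ z ∈ M, (1 - C (1 * z) * X : K[X]).natDegree = 1 := by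
    intro z hz
    have h2 : (1 - C (1 * z) * X : K[X]) = C (-z) * X + C 1 := by
      rw [one_mul, C_neg, C_1]
      ring
    rw [h2]
    exact natDegree_linear (neg_ne_zero.2 (h z hz))
  rw [natDegree_multiset_prod']
  · rw [Multiset.map_map]
    have h3 : M.map (natDegree ∘ fun z => (1 - C (1 * z) * X : K[X])) = M.map (fun _ => 1) :=
      Multiset.map_congr rfl h1
    rw [h3, Multiset.map_const', Multiset.sum_replicate, smul_eq_mul, mul_one]
  · rw [Multiset.map_map]
    refine Multiset.prod_ne_zero ?_
    intro h4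
    obtain ⟨z, hz, h5⟩ := Multiset.mem_map.1 h4
    rw [Function.comp_apply, leadingCoeff_eq_zero] at h5
    have h6 := h1 z hz
    rw [h5, natDegree_zero] at h6
    exact absurd h6 (by norm_num)

theorem zprod_one (M : Multiset K) (h : ∀ z ∈ M, z = 1) :
    zprod 1 M = (1 - X) ^ Multiset.card M := by
  unfold zprod
  have h3 : M.map (fun z => (1 - C (1 * z) * X : K[X])) = M.map (fun _ => 1 - X) := by
    refine Multiset.map_congr rfl fun z hz => ?_
    rw [h z hz, mul_one, C_1, one_mul]
  rw [h3, Multiset.map_const', Multiset.prod_replicate]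

/-- the multiplicity of the zero one after an expansion -/
theorem mult_expand (p : ℕ) [Fact p.Prime] [CharP K p] {d : ℕ} (hd : 0 < d) {F : K[X]}
    (hF : F ≠ 0) :
    (expand K d F).rootMultiplicity 1 ≤ p ^ padicValNat p d * F.natDegree := by
  classical
  have hp : p.Prime := Fact.out
  obtain ⟨d', hd', hdd⟩ : ∃ d', ¬ p ∣ d' ∧ d = p ^ padicValNat p d * d' := by
    obtain ⟨d', h1⟩ := pow_padicValNat_dvd (p := p) (n := d)
    refine ⟨d', ?_, h1⟩
    rintro ⟨e, he⟩
    apply pow_succ_padicValNat_not_dvd (p := p) hd.ne'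
    refine ⟨e, ?_⟩
    rw [pow_succ, mul_assoc, ← he]
    exact h1
  have hd'0 : 0 < d' := Nat.pos_of_ne_zero (by
    rintro rfl
    exact hd' (dvd_zero _))
  set a := padicValNat p d with ha
  have h1 : expand K d F = expand K (p ^ a) (expand K d' F) := by
    rw [← expand_mul, ← hdd]
  have hE : ExpChar K p := ExpChar.prime hp
  rw [h1, rootMultiplicity_expand_pow, one_pow]
  refine Nat.mul_le_mul_left _ ?_
  -- the part prime to `p`
  obtain ⟨F₁, hF₁, hF₁0⟩ := exists_eq_pow_rootMultiplicity_mul_and_not_dvd F hF 1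
  set m := F.rootMultiplicity 1 with hm
  have hmd : m ≤ F.natDegree := by
    have h2 := Polynomial.card_roots' F
    have h3 : F.roots.count 1 = m := count_roots F
    rw [← h3]
    exact (Multiset.count_le_card _ _).trans h2
  refine le_trans ?_ hmd
  have hF₁e : F₁.eval 1 ≠ 0 := by
    intro h
    exact hF₁0 (dvd_iff_isRoot.2 h)
  have h2 : expand K d' F = (X ^ d' - 1) ^ m * expand K d' F₁ := by
    conv_lhs => rw [hF₁]
    rw [map_mul, map_pow, map_sub, expand_X, expand_C, C_1]
  have hne : expand K d' F ≠ 0 := (expand_ne_zero hd'0).2 hF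
  rw [h2] at hne
  rw [h2, rootMultiplicity_mul hne]
  have h3 : (expand K d' F₁).rootMultiplicity 1 = 0 := by
    rw [rootMultiplicity_eq_zero]
    rw [IsRoot.def, expand_eval, one_pow]
    exact hF₁e
  rw [h3, add_zero]
  have hsep : (X ^ d' - 1 : K[X]).Separable := by
    rw [X_pow_sub_one_separable_iff]
    rw [Ne, CharP.cast_eq_zero_iff K p]
    exact hd'
  have h4 : (X ^ d' - 1 : K[X]) ≠ 0 := hsep.ne_zero
  have h5 : (X ^ d' - 1 : K[X]).rootMultiplicity 1 ≤ 1 := rootMultiplicity_le_one_of_separable hsep 1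
  have h6 : ∀ j, ((X ^ d' - 1 : K[X]) ^ j).rootMultiplicity 1 ≤ j := by
    intro j
    induction j with
    | zero =>
      rw [pow_zero, ← C_1, rootMultiplicity_C]
    | succ j ih =>
      rw [pow_succ, rootMultiplicity_mul (mul_ne_zero (pow_ne_zero _ h4) h4)]
      omega
  exact h6 m

theorem mult_prod {ι : Type} (S : Finset ι) (F : ι → K[X]) (w : ι → ℕ) (hF : ∀ i ∈ S, F i ≠ 0) :
    (∏ i ∈ S, F i ^ w i).rootMultiplicity 1 = ∑ i ∈ S, w i * (F i).rootMultiplicity 1 := by
  classical
  have h0 : ∀ (G : K[X]) (j : ℕ), G ≠ 0 → (G ^ j).rootMultiplicity 1 = j * G.rootMultiplicity 1 := by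
    intro G j hG
    rw [← count_roots, roots_pow, Multiset.count_nsmul, count_roots]
  induction S using Finset.induction_on with
  | empty => rw [Finset.prod_empty, Finset.sum_empty, ← C_1, rootMultiplicity_C]
  | insert i S hi ih =>
    rw [Finset.prod_insert hi, Finset.sum_insert hi, rootMultiplicity_mul, ih, h0]
    · exact hF i (Finset.mem_insert_self i S)
    · exact fun j hj => hF j (Finset.mem_insert_of_mem hj)
    · refine mul_ne_zero (pow_ne_zero _ (hF i (Finset.mem_insert_self i S)))
        (Finset.prod_ne_zero_iff.2 fun j hj => pow_ne_zero _ (hF j (Finset.mem_insert_of_mem hj)))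

/-- the order of the zero one -/
theorem card_le_mult (p : ℕ) [Fact p.Prime] [CharP K p] {ι : Type} (S : Finset ι) (F : ι → K[X])
    (w d : ι → ℕ) (hd : ∀ i, 0 < d i) (hF : ∀ i, F i ≠ 0) (n : ι → ℕ)
    (hn : ∀ i, (F i).natDegree ≤ n i)
    (good : ι → Prop) [DecidablePred good] (hg : ∀ i, good i → (F i).eval 1 ≠ 0) (M : Multiset K)
    (hM : ∀ z ∈ M, z = 1)
    (hdvd : zprod 1 M ∣ ∏ i ∈ S, (expand K (d i) (F i)) ^ w i) :
    Multiset.card M ≤ ∑ i ∈ S, if good i then 0 else w i * (p ^ padicValNat p (d i) * n i) := by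
  classical
  have hE : ∀ i, expand K (d i) (F i) ≠ 0 := fun i => (expand_ne_zero (hd i)).2 (hF i)
  rw [zprod_one M hM] at hdvd
  have h1 : (X - C (1 : K)) ^ (Multiset.card M) ∣ ∏ i ∈ S, (expand K (d i) (F i)) ^ w i := by
    refine dvd_trans ?_ hdvd
    refine pow_dvd_pow_of_dvd ?_ _
    refine ⟨-1, ?_⟩
    rw [C_1]
    ring
  have h2 : (∏ i ∈ S, (expand K (d i) (F i)) ^ w i) ≠ 0 :=
    Finset.prod_ne_zero_iff.2 fun j _ => pow_ne_zero _ (hE j)
  have h3 := (le_rootMultiplicity_iff h2).2 h1
  rw [mult_prod S _ w fun i _ => hE i] at h3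
  refine h3.trans (Finset.sum_le_sum fun i _ => ?_)
  split_ifs with h
  · have h4 : (expand K (d i) (F i)).rootMultiplicity 1 = 0 := by
      rw [rootMultiplicity_eq_zero]
      rw [IsRoot.def, expand_eval, one_pow]
      exact hg i h
    rw [h4, mul_zero]
  · refine Nat.mul_le_mul_left _ ((mult_expand p (hd i) (hF i)).trans ?_)
    exact Nat.mul_le_mul_left _ (hn i)

/-- the number of all the zeros -/
theorem card_le_degree {ι : Type} (S : Finset ι) (F : ι → K[X])
    (w d : ι → ℕ) (hd : ∀ i, 0 < d i) (hF : ∀ i, F i ≠ 0) (n : ι → ℕ)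
    (hn : ∀ i, (F i).natDegree ≤ n i)
    (good : ι → Prop) [DecidablePred good] (hg : ∀ i, good i → F i = 1) (M : Multiset K)
    (hM : ∀ z ∈ M, z ≠ 0)
    (hdvd : zprod 1 M ∣ ∏ i ∈ S, (expand K (d i) (F i)) ^ w i) :
    Multiset.card M ≤ ∑ i ∈ S, if good i then 0 else w i * (d i * n i) := by
  classical
  have hE : ∀ i, expand K (d i) (F i) ≠ 0 := fun i => (expand_ne_zero (hd i)).2 (hF i)
  have h2 : (∏ i ∈ S, (expand K (d i) (F i)) ^ w i) ≠ 0 :=
    Finset.prod_ne_zero_iff.2 fun j _ => pow_ne_zero _ (hE j)
  have h3 := natDegree_le_of_dvd hdvd h2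
  rw [natDegree_zprod M hM] at h3
  refine h3.trans ((natDegree_prod_le _ _).trans (Finset.sum_le_sum fun i _ => ?_))
  rw [natDegree_pow]
  split_ifs with h
  · rw [hg i h, map_one, natDegree_one, mul_zero]
  · rw [natDegree_expand, mul_comm (F i).natDegree]
    exact Nat.mul_le_mul_left _ (Nat.mul_le_mul_left _ (hn i))

end mult

end Pool.Agent.N876.KM
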