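import Pool.Agent.N876.KM.Val
import Pool.Agent.N876.KM.Mult
import Mathlib.FieldTheory.Finite.GaloisField
import Mathlib.FieldTheory.IsAlgClosed.AlgebraicClosure

/-!
The number of the zeros over a covering of degree a power of `p`.
-/

set_option autoImplicit false
set_option linter.unusedSectionVars false

open Polynomial Module

namespace Pool.Agent.N876.KM

open Pool.Agent.W313.Hyp Pool.Agent.W343.BSD Pool.Agent.Y709 Pool.Agent.Y709.Gen
open Pool.Agent.Y709.Lay

section spec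

variable {k : Type} [Field k]

theorem mP_injective : Function.Injective (mP (k := k)) := by
  intro P Q h
  have h1 : Ideal.span {P.1} = Ideal.span {Q.1} := congrArg MaximalSpectrum.asIdeal h
  exact Subtype.ext (eq_of_span h1)

theorem mP_surjective : Function.Surjective (mP (k := k)) := by
  intro 𝔭
  have hm := 𝔭.isMaximal
  have hpr : Submodule.IsPrincipal 𝔭.asIdeal := IsPrincipalIdealRing.principal _
  set g := Submodule.IsPrincipal.generator 𝔭.asIdeal with hg
  have hspan : Ideal.span {g} = 𝔭.asIdeal := Ideal.span_singleton_generator _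
  have hg0 : g ≠ 0 := by
    intro h0
    rw [h0, Ideal.span_singleton_eq_bot.2 rfl] at hspan
    have hX : (Ideal.span {(X : k[X])}) ≠ ⊤ := by
      rw [Ne, Ideal.span_singleton_eq_top]
      exact Polynomial.not_isUnit_X
    have h1 := hm.eq_of_le hX (by rw [← hspan]; exact bot_le)
    rw [← hspan] at h1
    exact X_ne_zero (Ideal.span_singleton_eq_bot.1 h1.symm)
  have hprime : Prime g := (Ideal.span_singleton_prime hg0).1 (hspan ▸ hm.isPrime)
  have hc : g.leadingCoeff ≠ 0 := leadingCoeff_ne_zero.2 hg0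
  refine ⟨⟨g * C g.leadingCoeff⁻¹, monic_mul_leadingCoeff_inv hg0,
    ?_⟩, ?_⟩
  · have hu : IsUnit (C g.leadingCoeff⁻¹ : k[X]) := isUnit_C.2 (isUnit_iff_ne_zero.2 (inv_ne_zero hc))
    exact (irreducible_mul_isUnit hu).2 hprime.irreducible
  · refine MaximalSpectrum.ext ?_
    show Ideal.span {g * C g.leadingCoeff⁻¹} = 𝔭.asIdeal
    have hu : IsUnit (C g.leadingCoeff⁻¹ : k[X]) := isUnit_C.2 (isUnit_iff_ne_zero.2 (inv_ne_zero hc))
    rw [Ideal.span_singleton_mul_right_unit hu, hspan]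

/-- the closed points of the line -/
noncomputable def eqMP (k : Type) [Field k] : MI k ≃ MaximalSpectrum k[X] :=
  Equiv.ofBijective mP ⟨mP_injective, mP_surjective⟩

end spec

section emb

/-- the field of constants -/
theorem exists_constK (k : Type) [Field k] [Finite k] (p f₀ s : ℕ) [hp : Fact p.Prime] [CharP k p]
    (hf₀ : 0 < f₀) (hk : Nat.card k = (p ^ f₀) ^ s) : Nonempty (GaloisField p f₀ →+* k) := by
  classical
  have hFt : Fintype k := Fintype.ofFinite k
  let _ : Algebra (ZMod p) k := ZMod.algebra k p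
  have h1 : finrank (ZMod p) k = f₀ * s := by
    have h3 := Module.natCard_eq_pow_finrank (K := ZMod p) (V := k)
    rw [hk, ← pow_mul, Nat.card_zmod] at h3
    exact (Nat.pow_right_injective hp.out.two_le h3).symm
  have h2 : finrank (ZMod p) (GaloisField p f₀) ∣ finrank (ZMod p) k := by
    rw [h1, GaloisField.finrank p hf₀.ne']
    exact Dvd.intro s rfl
  have hfin : Finite (GaloisField p f₀) := Nat.finite_of_card_ne_zero (by
    rw [GaloisField.card p f₀ hf₀.ne']
    exact pow_ne_zero _ hp.out.ne_zero)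
  obtain ⟨φ⟩ := FiniteField.nonempty_algHom_of_finrank_dvd h2
  exact ⟨(φ : GaloisField p f₀ →+* k)⟩

end emb

section lo

variable {k₀ k R : Type} [Field k₀] [Fintype k₀] [Field k] [Fintype k] [Algebra k₀ k]
  [CommRing R] (ι : R →+* ℂ) {κ Λ : Type} [Fintype κ] [Fintype Λ] {q N : ℕ}
  {O : Type} [CommRing O] [Algebra k[X] O] (G : Type) [Group G] [Finite G]
  [MulSemiringAction G O] [IsGaloisGroup G k[X] O]

include G in
/-- the function of the character of order `N` -/
theorem LO_rel (ω : MulChar k₀ R) {χ' : MulChar k ℂ} {χ : MulChar k₀ ℂ}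
    (h : ∀ u : k, χ' u = χ (Algebra.norm k₀ u)) {j : ℕ}
    (hrel : ∀ (u : k₀) (a : ℕ), ¬ N ∣ a →
      χ u ^ a = (ω.ringHomComp ι) u ^ ((j * a % N) * ((q - 1) / N)))
    (coef : Λ → k[X]) (bb : Λ → ℕ) (hbb : ∀ l, ¬ N ∣ bb l)
    (b : κ → k[X]) (a : κ → ℕ) (ha : ∀ i, ¬ N ∣ a i) :
    LO O χ' (∏ l, coef l ^ bb l) b a =
      PowerSeries.map ι (LO O ω (∏ l, coef l ^ ((j * bb l % N) * ((q - 1) / N))) b
        (fun i => (j * a i % N) * ((q - 1) / N))) := by
  unfold LO
  rw [map_eulerProd (cover_finite (k := k) G)]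
  congr 1
  funext z
  have hfd := finiteDim_RO (k := k) G z.1
  have hf : Fact (Irreducible z.2.1) := ⟨z.2.2.2⟩
  have hfd1 : FiniteDimensional (RO k z.1) (AdjoinRoot z.2.1) := z.2.2.1.finite_adjoinRoot
  have hfd2 : FiniteDimensional k (AdjoinRoot z.2.1) := FiniteDimensional.trans k (RO k z.1) _
  rw [map_sub, map_one, map_mul, map_pow, PowerSeries.map_X, PowerSeries.map_C]
  congr 3
  have e2 := prod_rel (F := AdjoinRoot z.2.1) h hrel
    (fun l => AdjoinRoot.mk z.2.1 (C (vO k z.1 (coef l)))) bb hbb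
  have e3 := prod_rel (F := AdjoinRoot z.2.1) h hrel
    (fun i => AdjoinRoot.mk z.2.1 (X - C (vO k z.1 (b i)))) a ha
  unfold fibp
  rw [map_mul, map_mul, map_mul, map_mul]
  have e4 : ∀ (c : Λ → ℕ), AdjoinRoot.mk z.2.1 (C (vO k z.1 (∏ l, coef l ^ c l))) =
      ∏ l, (AdjoinRoot.mk z.2.1 (C (vO k z.1 (coef l)))) ^ c l := by
    intro c
    rw [map_prod, map_prod, map_prod]
    exact Finset.prod_congr rfl fun l _ => by rw [map_pow, map_pow, map_pow]
  have e5 : ∀ (c : κ → ℕ), AdjoinRoot.mk z.2.1 (∏ i, (X - C (vO k z.1 (b i))) ^ c i) =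
      ∏ i, (AdjoinRoot.mk z.2.1 (X - C (vO k z.1 (b i)))) ^ c i := by
    intro c
    rw [map_prod]
    exact Finset.prod_congr rfl fun l _ => by rw [map_pow]
  rw [e4, e5, e2, e3, ← map_mul, ← map_mul, ← map_mul, ← e4, ← e5]
  rfl

end lo

section main

theorem dvd_prod_pow_iff {k : Type} [Field k] {Λ : Type} [Fintype Λ] (P : MI k) (coef : Λ → k[X])
    (c : Λ → ℕ) (hc : ∀ l, c l ≠ 0) : P.1 ∣ ∏ l, coef l ^ c l ↔ ∃ l, P.1 ∣ coef l := by
  have hP : Prime P.1 := P.2.2.prime
  rw [Prime.dvd_finsetProd_iff hP]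
  constructor
  · rintro ⟨l, _, hl⟩
    exact ⟨l, hP.dvd_of_dvd_pow hl⟩
  · rintro ⟨l, hl⟩
    exact ⟨l, Finset.mem_univ l, dvd_pow hl (hc l)⟩

open Classical in
/-- **the number of the zeros over a covering of degree a power of `p`** -/
theorem main {k : Type} [Field k] [Fintype k] {p f₀ s q N j g D : ℕ} [hp : Fact p.Prime]
    [CharP k p] (hf₀ : 0 < f₀) (hs : 0 < s) (hq : q = p ^ f₀) (hk : Fintype.card k = q ^ s)
    (hN : N ∣ q - 1) (hj : j.Coprime N) {κ Λ : Type} [Fintype κ] [DecidableEq κ] [Fintype Λ]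
    (hκ : 1 < Fintype.card κ) (coef : Λ → k[X]) (bb : Λ → ℕ) (hbb : ∀ l, ¬ N ∣ bb l)
    (b : κ → k[X]) (a : κ → ℕ) (ha : ∀ i, ¬ N ∣ a i) (hD : 0 < D)
    (hb : ∀ i, (b i).natDegree ≤ D)
    (hsmall : ∑ l, (j * bb l % N) * (coef l).natDegree + D * ∑ i, (j * a i % N) < N)
    (hcarry : (∑ i, (j * a i % N)) * ((q - 1) / N) < p)
    {O : Type} [CommRing O] [Algebra k[X] O] (G : Type) [Group G] [Finite G]
    [MulSemiringAction G O] [IsGaloisGroup G k[X] O] [FaithfulSMul k[X] O]
    (hG : Nat.card G = p ^ g) (S : Finset (MaximalSpectrum k[X])) (e : MaximalSpectrum k[X] → ℕ)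
    (he : ∀ (𝔪 : MaximalSpectrum O) (𝔭 : MaximalSpectrum k[X]),
      𝔪.asIdeal.comap (algebraMap k[X] O) = 𝔭.asIdeal → Nat.card (𝔪.asIdeal.inertia G) = e 𝔭)
    (heS : ∀ 𝔭, 𝔭 ∉ S → (∏ l, coef l ^ bb l) ∉ 𝔭.asIdeal → e 𝔭 = 1)
    (χ' : MulChar k ℂ) (hχ' : orderOf χ' = N) (M : Multiset ℂ)
    (hM : ∀ z ∈ M, ∃ n : ℕ, 0 < n ∧ z ^ n = 1) (H : ℂ[X])
    (hH : LO O χ' (∏ l, coef l ^ bb l) b a =
      (((M.map fun z => 1 - C ((Nat.card k : ℂ) * z) * X).prod * H : ℂ[X]) : PowerSeries ℂ)) :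
    Multiset.card M ≤ ∑ 𝔭 ∈ S, (if (∏ l, coef l ^ bb l) ∈ 𝔭.asIdeal then 0 else
      (Nat.card G - Nat.card G / e 𝔭) * (finrank k (RO k 𝔭) *
        ((Set.range fun i => vO k 𝔭 (b i)).ncard - 1))) ∧
    ((∀ z ∈ M, ∃ n : ℕ, z ^ p ^ n = 1) → Multiset.card M ≤ ∑ 𝔭 ∈ S,
      (if (∏ l, coef l ^ bb l) ∈ 𝔭.asIdeal ∨ NonAn k p N (∏ l, coef l ^ bb l) b a 𝔭 then 0 else
        (Nat.card G - Nat.card G / e 𝔭) *
          (p ^ padicValNat p (finrank k (RO k 𝔭)) *
            ((Set.range fun i => vO k 𝔭 (b i)).ncard - 1)))) := by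
  -- numbers
  have hp2 : 2 ≤ p := hp.out.two_le
  have hq2 : 2 ≤ q := by
    rw [hq]
    exact hp2.trans (Nat.le_self_pow hf₀.ne' p)
  obtain ⟨c, hc⟩ := id hN
  have hN0 : 0 < N := Nat.pos_of_ne_zero (by
    rintro rfl
    omega)
  have hc0 : 0 < c := Nat.pos_of_ne_zero (by
    rintro rfl
    omega)
  have hdiv : (q - 1) / N = c := by
    rw [hc, Nat.mul_div_cancel_left _ hN0]
  have hmod : ∀ x : ℕ, ¬ N ∣ x → 0 < j * x % N := by
    intro x hx
    refine Nat.pos_of_ne_zero fun h1 => ?_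
    exact hx ((Nat.Coprime.dvd_mul_left hj.symm).1 (Nat.dvd_of_mod_eq_zero h1))
  have hmpos : ∀ x : ℕ, ¬ N ∣ x → 0 < (j * x % N) * ((q - 1) / N) := by
    intro x hx
    rw [hdiv]
    exact Nat.mul_pos (hmod x hx) hc0
  set m : κ → ℕ := fun i => (j * a i % N) * ((q - 1) / N) with hm
  set E : k[X] := ∏ l, coef l ^ ((j * bb l % N) * ((q - 1) / N)) with hE
  set B : k[X] := ∏ l, coef l ^ bb l with hB
  have hsum : ∑ i, m i = (∑ i, (j * a i % N)) * c := by
    rw [Finset.sum_mul]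
    refine Finset.sum_congr rfl fun i _ => ?_
    rw [hm]
    dsimp only
    rw [hdiv]
  have hEdeg : E.natDegree ≤ (∑ l, (j * bb l % N) * (coef l).natDegree) * c := by
    rw [hE, Finset.sum_mul]
    refine (natDegree_prod_le _ _).trans (Finset.sum_le_sum fun l _ => ?_)
    refine natDegree_pow_le.trans (le_of_eq ?_)
    rw [hdiv]
    ring
  have hn : E.natDegree + D * ∑ i, m i < q - 1 := by
    have h1 : (∑ l, (j * bb l % N) * (coef l).natDegree + D * ∑ i, (j * a i % N)) * c < N * c :=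
      Nat.mul_lt_mul_of_pos_right hsmall hc0
    rw [← hc, add_mul, mul_assoc, ← hsum] at h1
    omega
  have hmq : ∑ i, m i < q - 1 := by
    have h1 : 1 * ∑ i, m i ≤ D * ∑ i, m i := Nat.mul_le_mul_right _ hD
    omega
  have hmp : ∑ i, m i < p := by
    rw [hsum, ← hdiv]
    exact hcarry
  have hmi : ∀ i, 0 < m i := fun i => hmpos _ (ha i)
  have hm2 : 2 ≤ ∑ i, m i := by
    have h1 : ∑ i : κ, 1 ≤ ∑ i, m i := Finset.sum_le_sum fun i _ => hmi i
    rw [Finset.sum_const, Finset.card_univ, smul_eq_mul, mul_one] at h1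
    omega
  have h5 : 5 ≤ q := by
    have h1 : Odd p := hp.out.odd_of_ne_two (by omega)
    have h2 : Odd q := by
      rw [hq]
      exact h1.pow
    obtain ⟨t, ht⟩ := h2
    omega
  obtain ⟨o⟩ : Nonempty κ := Fintype.card_pos_iff.1 (by omega)
  -- the fields
  obtain ⟨φ⟩ := exists_constK k p f₀ s hf₀ (by rw [Nat.card_eq_fintype_card, hk, hq])
  let k₀ := GaloisField p f₀
  let _ : Algebra k₀ k := φ.toAlgebra
  have hfin : Finite k₀ := Nat.finite_of_card_ne_zero (by
    rw [GaloisField.card p f₀ hf₀.ne']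
    exact pow_ne_zero _ hp.out.ne_zero)
  let _ : Fintype k₀ := Fintype.ofFinite k₀
  have hk₀ : Fintype.card k₀ = q := by
    rw [← Nat.card_eq_fintype_card, GaloisField.card p f₀ hf₀.ne', hq]
  have hcp : CharP k₀ p := φ.charP φ.injective p
  have hinv : ∀ i : ℕ, i < ∑ l, m l → ((i : k₀) + 1) ≠ 0 := by
    intro i hi h
    have h1 : ((i + 1 : ℕ) : k₀) = 0 := by rw [Nat.cast_succ, h]
    rw [CharP.cast_eq_zero_iff k₀ p] at h1
    have h2 := Nat.le_of_dvd (Nat.succ_pos i) h1
    omega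
  let K := AlgebraicClosure k
  have hKp : CharP K p := charP_of_injective_algebraMap (algebraMap k K).injective p
  -- the characters
  obtain ⟨χ, hχ, hcomp⟩ := exists_charN hk₀ hN χ' hχ'
  obtain ⟨γ, hγ⟩ := IsCyclic.exists_generator (α := k₀ˣ)
  obtain ⟨z, hz, hzξ⟩ := exists_root (q := q) (by omega) hN hj (prim_of_order χ hN0 hχ hγ)
  obtain ⟨R, i1, i2, i3, ι, π, ω, hι, hu, hω, hωγ, hint⟩ :=
    exists_ring ((algebraMap k K).comp (algebraMap k₀ k)) (z := z) (by rw [hk₀]; exact hz) γ hγ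
  have hrel : ∀ (u : k₀) (a : ℕ), ¬ N ∣ a →
      χ u ^ a = (ω.ringHomComp ι) u ^ ((j * a % N) * ((q - 1) / N)) := by
    intro u x hx
    refine char_rel hk₀ hN j χ (ω.ringHomComp ι) γ hγ ?_ hj u hx
    rw [← hzξ, ← hωγ]
    rfl
  -- the functional equation
  obtain ⟨L, F, h1, h2, h3⟩ := global_ram (k₀ := k₀) (k := k) (K := K) (O := O) π hu ω hω G hq hf₀ hk₀ hs hk h5 hG E b hb hmi
    hmq hinv o hn (S.map (eqMP k).symm.toEmbedding) (fun P => e (mP P))
    (fun P 𝔪 h𝔪 => he 𝔪 (mP P) ((mem_above G).1 h𝔪))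
    (by
      intro P hP hPE
      apply heS
      · intro hS
        apply hP
        rw [Finset.mem_map]
        exact ⟨mP P, hS, (eqMP k).symm_apply_apply P⟩
      · intro hmem
        apply hPE
        rw [hE, dvd_prod_pow_iff _ _ _ fun l => (hmpos _ (hbb l)).ne']
        have h4 : P.1 ∣ B := Ideal.mem_span_singleton.1 hmem
        rwa [hB, dvd_prod_pow_iff _ _ _ fun l => ?_] at h4
        intro h5
        apply hbb l
        rw [h5]
        exact dvd_zero _)
  -- the zeros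
  have hMint : ∀ z ∈ M, IsIntegral ℤ z := by
    intro z hz
    obtain ⟨n, hn, hzn⟩ := hM z hz
    refine IsIntegral.of_pow hn ?_
    rw [hzn]
    exact isIntegral_one
  let r : ℂ → R := fun z => if hz : IsIntegral ℤ z then (hint z hz).choose else 0
  have hr : ∀ z ∈ M, ι (r z) = z := by
    intro z hz
    have h4 : r z = (hint z (hMint z hz)).choose := dif_pos (hMint z hz)
    rw [h4]
    exact (hint z (hMint z hz)).choose_spec
  have hMr : (M.map r).map ι = M := by
    rw [Multiset.map_map]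
    conv_rhs => rw [← Multiset.map_id M]
    exact Multiset.map_congr rfl hr
  have hq0 : ((q : R) ^ s) ≠ 0 := pow_ne_zero _ (Nat.cast_ne_zero.2 (by omega))
  have hG' : PowerSeries.map ι (LO O ω E b m) =
      (((zprod ((q : R) ^ s) (M.map r)).map ι * H : ℂ[X]) : PowerSeries ℂ) := by
    rw [← LO_rel ι G ω hcomp hrel coef bb hbb b a ha, hH, map_zprod, hMr, map_pow, map_natCast]
    unfold zprod
    rw [Nat.card_eq_fintype_card, hk, Nat.cast_pow]
  have hdvd := zprod_dvd ι hι π hq0 h1 h2 (M.map r) H hG'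
  have hF0 : ∀ P, F P ≠ 0 := by
    intro P h4
    have h5 := (h3 P).2.1
    rw [h4, coeff_zero] at h5
    exact zero_ne_one h5
  have hdeg : ∀ P, (F P).natDegree ≤ (Set.range fun i => vO k (mP P) (b i)).ncard - 1 :=
    fun P => by
    have := (h3 P).1
    omega
  have hBE : ∀ P : MI k, B ∈ (mP P).asIdeal → F P = 1 := by
    intro P hP
    apply (h3 P).2.2.1
    rw [hE, dvd_prod_pow_iff _ _ _ fun l => (hmpos _ (hbb l)).ne']
    have h4 : P.1 ∣ B := Ideal.mem_span_singleton.1 hP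
    rwa [hB, dvd_prod_pow_iff _ _ _ fun l => ?_] at h4
    intro h5
    apply hbb l
    rw [h5]
    exact dvd_zero _
  have hcardM : Multiset.card ((M.map r).map π) = Multiset.card M := by
    rw [Multiset.card_map, Multiset.card_map]
  have hEq : ∀ 𝔭 : MaximalSpectrum k[X], mP ((eqMP k).symm 𝔭) = 𝔭 := fun 𝔭 =>
    (eqMP k).apply_symm_apply 𝔭
  have hfr : ∀ 𝔭 : MaximalSpectrum k[X], ((eqMP k).symm 𝔭).1.natDegree = finrank k (RO k 𝔭) := by
    intro 𝔭
    have h4 := finrank_mP ((eqMP k).symm 𝔭)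
    rw [hEq] at h4
    exact h4.symm
  refine ⟨?_, fun hMp => ?_⟩
  · have h4 := card_le_degree _ F (fun P : MI k => Nat.card G - Nat.card G / e (mP P))
      (fun P => P.1.natDegree) (fun P => MI.deg_pos P) hF0 _ hdeg
      (fun P => B ∈ (mP P).asIdeal) hBE ((M.map r).map π) (by
        intro x hx
        rw [Multiset.map_map, Multiset.mem_map] at hx
        obtain ⟨z, hz, rfl⟩ := hx
        obtain ⟨n, hn, hzn⟩ := hM z hz
        rw [Function.comp_apply]
        intro h0
        have h5 : (r z) ^ n = 1 := by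
          apply hι
          rw [map_pow, hr z hz, hzn, map_one]
        have h6 := congrArg π h5
        rw [map_pow, h0, zero_pow hn.ne', map_one] at h6
        exact zero_ne_one h6) hdvd
    rw [hcardM, Finset.sum_map] at h4
    refine h4.trans (le_of_eq (Finset.sum_congr rfl fun 𝔭 _ => ?_))
    rw [Equiv.coe_toEmbedding, hEq, hfr]
  · have h4 := card_le_mult p _ F (fun P : MI k => Nat.card G - Nat.card G / e (mP P))
      (fun P => P.1.natDegree) (fun P => MI.deg_pos P) hF0 _ hdeg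
      (fun P => B ∈ (mP P).asIdeal ∨ NonAn k p N B b a (mP P)) (by
        rintro P (hP | hP)
        · rw [hBE P hP, eval_one]
          exact one_ne_zero
        · refine (h3 P).2.2.2 ?_
          refine valP_ne ι hι π hint ω hχ' hcomp hrel coef bb hbb b a ha ?_ ?_ P hP
          · refine Finset.sum_pos (fun i _ => Nat.pos_of_ne_zero fun h5 => ha i ?_)
              ⟨o, Finset.mem_univ o⟩
            rw [h5]
            exact dvd_zero _
          · intro h5
            have h6 : (∑ i, (j * a i % N)) % N = 0 := by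
              rw [← Finset.sum_nat_mod, ← Finset.mul_sum]
              exact Nat.mod_eq_zero_of_dvd (h5.mul_left j)
            have h7 : ∑ i, (j * a i % N) < N := by
              have h8 : 1 * ∑ i, (j * a i % N) ≤ D * ∑ i, (j * a i % N) :=
                Nat.mul_le_mul_right _ hD
              omega
            rw [Nat.mod_eq_of_lt h7] at h6
            have h9 := (Finset.sum_eq_zero_iff.1 h6) o (Finset.mem_univ o)
            exact absurd h9 (hmod _ (ha o)).ne') ((M.map r).map π) (by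
        intro x hx
        rw [Multiset.map_map, Multiset.mem_map] at hx
        obtain ⟨z, hz, rfl⟩ := hx
        obtain ⟨n, hzn⟩ := hMp z hz
        rw [Function.comp_apply]
        have h5 : (r z) ^ p ^ n = 1 := by
          apply hι
          rw [map_pow, hr z hz, hzn, map_one]
        have h6 := congrArg π h5
        rw [map_pow, map_one] at h6
        have h7 : (π (r z) - 1) ^ p ^ n = 0 := by
          rw [sub_pow_char_pow, h6, one_pow, sub_self]
        exact sub_eq_zero.1 (eq_zero_of_pow_eq_zero h7)) hdvd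
    rw [hcardM, Finset.sum_map] at h4
    refine h4.trans (le_of_eq (Finset.sum_congr rfl fun 𝔭 _ => ?_))
    rw [Equiv.coe_toEmbedding, hEq, hfr]

end main

end Pool.Agent.N876.KM
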