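import Pool.Agent.N876.KM.Fe
import Pool.Agent.Y709.Lay.GlobB

/-!
The Euler product over a covering of degree a power of `p` with arbitrary ramification (after
Pool.Agent.Y709.Lay.GlobB).
-/

set_option autoImplicit false
set_option linter.unusedSectionVars false

open Polynomial Module

namespace Pool.Agent.N876.KM

open Pool.Agent.W313.Hyp Pool.Agent.W343.BSD Pool.Agent.Y709 Pool.Agent.Y709.Gen
open Pool.Agent.Y709.Lay

section pts

variable {k : Type} [Field k] [Finite k] {O : Type} [CommRing O] [Algebra k[X] O]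
  (G : Type) [Group G] [Finite G] [MulSemiringAction G O] [IsGaloisGroup G k[X] O]

include G in
/-- the number of the geometric points above a point -/
theorem sum_inertiaDeg_ram [FaithfulSMul k[X] O] (P : MI k) (e : ℕ)
    (he : ∀ 𝔪 : MaximalSpectrum O, 𝔪 ∈ above k P → Nat.card (𝔪.asIdeal.inertia G) = e) :
    0 < e ∧ ∑ 𝔪 ∈ (above_finite (O := O) G P).toFinset, 𝔪.asIdeal.inertiaDeg k[X] =
      Nat.card G / e := by
  obtain ⟨𝔪₀, h₀⟩ := above_nonempty (O := O) G P
  have h1 := fun (𝔪 : MaximalSpectrum O) (h : 𝔪 ∈ above k P) => inertia_mul G h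
  have hG : 0 < Nat.card G := Nat.card_pos
  have h4 := h1 𝔪₀ h₀
  rw [he 𝔪₀ h₀] at h4
  have he0 : 0 < e := by
    rcases Nat.eq_zero_or_pos e with h | h
    · rw [h, mul_zero, zero_mul] at h4
      omega
    · exact h
  have h6 : 0 < (above k P : Set (MaximalSpectrum O)).ncard := by
    rcases Nat.eq_zero_or_pos (above k P : Set (MaximalSpectrum O)).ncard with h | h
    · rw [h, zero_mul, zero_mul] at h4
      omega
    · exact h
  have h2 : ∀ 𝔪 : MaximalSpectrum O, 𝔪 ∈ above k P →
      𝔪.asIdeal.inertiaDeg k[X] = 𝔪₀.asIdeal.inertiaDeg k[X] := by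
    intro 𝔪 h
    have h3 := h1 𝔪 h
    rw [he 𝔪 h] at h3
    exact Nat.eq_of_mul_eq_mul_left (Nat.mul_pos h6 he0) (h3.trans h4.symm)
  refine ⟨he0, ?_⟩
  rw [Finset.sum_congr rfl (fun 𝔪 h𝔪 => h2 𝔪 ((Set.Finite.mem_toFinset _).1 h𝔪)),
    Finset.sum_const, smul_eq_mul, ← Set.ncard_eq_toFinset_card _ (above_finite (O := O) G P)]
  rw [← h4]
  symm
  apply Nat.div_eq_of_eq_mul_left he0
  ring

end pts

section spec

variable {k : Type} [Field k]

/-- a closed point of the line as a maximal ideal -/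
noncomputable def mP (P : MI k) : MaximalSpectrum k[X] :=
  ⟨Ideal.span {P.1}, by
    have h1 : Fact (Irreducible P.1) := ⟨P.2.2⟩
    exact AdjoinRoot.span_maximal_of_irreducible⟩

theorem vO_mP (P : MI k) (g : k[X]) : vO k (mP P) g = 0 ↔ P.1 ∣ g := by
  rw [vO_eq_zero]
  show g ∈ Ideal.span {P.1} ↔ _
  rw [Ideal.mem_span_singleton]

/-- the residue field as a quotient -/
noncomputable def eqvP (P : MI k) : AdjoinRoot P.1 ≃ₐ[k] RO k (mP P) :=
  AlgEquiv.ofRingEquiv
    (f := (RingEquiv.refl (k[X] ⧸ Ideal.span {P.1}) : AdjoinRoot P.1 ≃+* RO k (mP P)))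
    (fun _ => rfl)

noncomputable instance finDim_mP (P : MI k) : FiniteDimensional k (RO k (mP P)) := by
  have h1 : Module.Finite k (AdjoinRoot P.1) := (AdjoinRoot.powerBasis P.2.1.ne_zero).finite
  exact Module.Finite.equiv (eqvP P).toLinearEquiv

theorem finrank_mP (P : MI k) : finrank k (RO k (mP P)) = P.1.natDegree := by
  have h2 := (AdjoinRoot.powerBasis P.2.1.ne_zero).finrank
  rw [AdjoinRoot.powerBasis_dim] at h2
  rw [← h2]
  exact (LinearEquiv.finrank_eq (eqvP P).toLinearEquiv).symm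

theorem mP_above (P : MI k) : mP P ∈ above k P := by
  show minpoly k (vO k (mP P) X) = P.1
  symm
  refine minpoly.eq_of_irreducible_of_monic P.2.2 ?_ P.2.1
  rw [← vO_eq_aeval, vO_mP]

end spec

section glob

variable {k₀ k R K : Type} [Field k₀] [Fintype k₀] [Field k] [Fintype k] [Algebra k₀ k]
  [CommRing R] [IsDomain R] [CharZero R] [Field K] [Algebra k K] [IsAlgClosed K]
  [Algebra.IsAlgebraic k K] (π : R →+* K)
  (hu : ∀ r : R, π r ≠ 0 → IsUnit r) (χ : MulChar k₀ R)
  (hχ : ∀ u : k₀, π (χ u) = algebraMap k K (algebraMap k₀ k u))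
  {κ : Type} [Fintype κ] [DecidableEq κ]
  {O : Type} [CommRing O] [Algebra k[X] O] (G : Type) [Group G] [Finite G]
  [MulSemiringAction G O] [IsGaloisGroup G k[X] O] [FaithfulSMul k[X] O]

/-- the value at one of the function of the inverse character at the fibre over `P` -/
noncomputable def valP (χ : MulChar k₀ R) (E : k[X]) (b : κ → k[X]) (m : κ → ℕ) (P : MI k) : R := by
  classical
  exact
    letI : Finite (RO k (mP P)) := Module.finite_of_finite k
    letI : FiniteDimensional k₀ (RO k (mP P)) := FiniteDimensional.trans k₀ k (RO k (mP P))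
    ∑ j ∈ Finset.range (Fintype.card κ),
      monSum (psiG (chiN (RO k (mP P)) χ)⁻¹ ((-1) ^ (∑ i, m i) * vO k (mP P) E)
        (fun i => vO k (mP P) (b i)) m) j

include hu hχ in
/-- the local factors over the line -/
theorem local_line {p f₀ q s : ℕ} [hp : Fact p.Prime] [CharP k p] (hq : q = p ^ f₀)
    (hf₀ : 0 < f₀) (hk₀ : Fintype.card k₀ = q) (hs : 0 < s) (hk : Fintype.card k = q ^ s)
    (h5 : 5 ≤ q) (E : k[X]) (b : κ → k[X]) {m : κ → ℕ} (hm : ∀ i, 0 < m i)
    (hmq : ∑ i, m i < q - 1) (hinv : ∀ i : ℕ, i < ∑ l, m l → ((i : k₀) + 1) ≠ 0) (o : κ)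
    (P : MI k) {r : K} (hr : aeval r P.1 = 0) :
    (locS (MonoidHom.id K) q (tw K p f₀ (MG E b m o)) r (P.1.natDegree * s)).charpolyRev.natDegree
        + 1 ≤ (Set.range fun i => vO k (mP P) (b i)).ncard ∧
      (π (valP χ E b m P) ≠ 0 →
        (locS (MonoidHom.id K) q (tw K p f₀ (MG E b m o)) r
          (P.1.natDegree * s)).charpolyRev.eval 1 ≠ 0) := by
  have hpK : CharP K p := charP_of_injective_algebraMap (algebraMap k K).injective p
  have hfi : Finite (RO k (mP P)) := Module.finite_of_finite k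
  have hFt : Fintype (RO k (mP P)) := Fintype.ofFinite _
  have hmf : FiniteDimensional k₀ (RO k (mP P)) := FiniteDimensional.trans k₀ k (RO k (mP P))
  have hFc : Fintype.card (RO k (mP P)) = q ^ (P.1.natDegree * s) := by
    have h1 := Module.card_eq_pow_finrank (K := k) (V := RO k (mP P))
    rw [h1, hk, finrank_mP, ← pow_mul]
    congr 1
    ring
  have hFp : CharP (RO k (mP P)) p :=
    charP_of_injective_algebraMap (algebraMap k (RO k (mP P))).injective p
  obtain ⟨σ, hσ⟩ := exists_emb (k := k) (𝔪 := mP P) (P := P) (mP_above P) hr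
  obtain ⟨Q, h0, h1, h2, h3, h4⟩ := fibre_feK π (σ : RO k (mP P) →+* K) χ (fun u => by
      rw [hχ]
      exact (σ.commutes (algebraMap k₀ k u)).symm) hu hq hf₀ hk₀ h5
    (Nat.mul_pos (MI.deg_pos P) hs) hFc hm hmq hinv (vO k (mP P) E)
    (fun i => vO k (mP P) (b i)) o
  have h5' := locFS_MG (k₀ := k₀) hq hk E b m o P hr σ hσ 1
  rw [one_mul, pow_one] at h5'
  rw [← h5', ← h2]
  refine ⟨(Nat.add_le_add_right natDegree_map_le 1).trans h3, fun hv => ?_⟩
  rw [← map_one π, eval_map, eval₂_at_apply]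
  apply h4
  unfold valP at hv
  convert hv using 3

include hu hχ in
/-- the functional equation over the covering and its reduction -/
theorem global_ram {p f₀ q s d g : ℕ} [hp : Fact p.Prime] [CharP k p] (hq : q = p ^ f₀)
    (hf₀ : 0 < f₀) (hk₀ : Fintype.card k₀ = q) (hs : 0 < s) (hk : Fintype.card k = q ^ s)
    (h5 : 5 ≤ q) (hG : Nat.card G = p ^ g) (E : k[X]) (b : κ → k[X])
    (hb : ∀ i, (b i).natDegree ≤ d) {m : κ → ℕ} (hm : ∀ i, 0 < m i)
    (hmq : ∑ i, m i < q - 1) (hinv : ∀ i : ℕ, i < ∑ l, m l → ((i : k₀) + 1) ≠ 0) (o : κ)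
    (hn : E.natDegree + d * ∑ i, m i < q - 1) (S : Finset (MI k)) (e : MI k → ℕ)
    (he : ∀ (P : MI k) (𝔪 : MaximalSpectrum O), 𝔪 ∈ above k P →
      Nat.card (𝔪.asIdeal.inertia G) = e P)
    (heS : ∀ P : MI k, P ∉ S → ¬ P.1 ∣ E → e P = 1) :
    ∃ (L : PowerSeries R) (F : MI k → K[X]),
      LO O χ E b m * PowerSeries.rescale ((q : R) ^ s) L = 1 ∧
      PowerSeries.map π L * ((∏ P ∈ S, (Polynomial.expand K P.1.natDegree (F P)) ^
        (Nat.card G - Nat.card G / e P) : K[X]) : PowerSeries K) = 1 ∧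
      ∀ P, (F P).natDegree + 1 ≤ (Set.range fun i => vO k (mP P) (b i)).ncard ∧
        (F P).coeff 0 = 1 ∧ (P.1 ∣ E → F P = 1) ∧
        (π (valP χ E b m P) ≠ 0 → (F P).eval 1 ≠ 0) := by
  classical
  have hfin := fun n => points_finite (k := k) (O := O) G n
  have hfink := fun n => finite_deg_le (F := k) n
  have hroot := fun P : MI k => exists_root_MI (K := K) P
  choose ρ hρ using hroot
  have hfd : ∀ 𝔪 : MaximalSpectrum O, FiniteDimensional k (RO k 𝔪) := fun 𝔪 => finiteDim_RO G 𝔪
  have hpK : CharP K p := charP_of_injective_algebraMap (algebraMap k K).injective p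
  -- the local factors
  have hloc : ∀ 𝔪 : MaximalSpectrum O, ∃ Q : R[X], Q.coeff 0 = 1 ∧
      fibG R χ (fibp (vO k 𝔪 E) (fun i => vO k 𝔪 (b i)) m) *
        PowerSeries.rescale (((q : R) ^ s) ^ (finrank k (RO k 𝔪))) (Q : PowerSeries R) = 1 ∧
      PowerSeries.expand (finrank k (RO k 𝔪)) (finrank_ne' G 𝔪) ((Q.map π : K[X]) : PowerSeries K) =
        (locFS (MonoidHom.id K) q s (tw K p f₀ (MG E b m o)) (ρ (pt (k := k) 𝔪))
          (pt (k := k) 𝔪).1.natDegree (deg_ne _)) ^ (𝔪.asIdeal.inertiaDeg k[X]) := by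
    intro 𝔪
    have hfi : Finite (RO k 𝔪) := finite_RO (k := k) G 𝔪
    have hFt : Fintype (RO k 𝔪) := Fintype.ofFinite _
    have hfin0 : Finite k₀ := inferInstance
    have hmf : Module.Finite k₀ (RO k 𝔪) := Module.Finite.of_finite
    set P := pt (k := k) 𝔪 with hP
    set f := 𝔪.asIdeal.inertiaDeg k[X] with hf
    have hfr : finrank k (RO k 𝔪) = P.1.natDegree * f := finrank_RO (k := k) G 𝔪
    have hfpos : 0 < f := inertiaDeg_pos (k := k) G
    have hFc : Fintype.card (RO k 𝔪) = q ^ (f * (P.1.natDegree * s)) := by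
      have h1 := Module.card_eq_pow_finrank (K := k) (V := RO k 𝔪)
      rw [h1, hk, hfr, ← pow_mul]
      congr 1
      ring
    have hFp : CharP (RO k 𝔪) p :=
      charP_of_injective_algebraMap (algebraMap k (RO k 𝔪)).injective p
    obtain ⟨σ, hσ⟩ := exists_emb (k := k) (𝔪 := 𝔪) (P := P) rfl (hρ P)
    obtain ⟨Q, h0, h1, h2⟩ := fibre_feG π (σ : RO k 𝔪 →+* K) χ (fun u => by
        rw [hχ]
        exact (σ.commutes (algebraMap k₀ k u)).symm) hu hq hf₀ hk₀ h5
      (Nat.mul_pos hfpos (Nat.mul_pos (MI.deg_pos P) hs)) hFc hm hmq hinv (vO k 𝔪 E)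
      (fun i => vO k 𝔪 (b i)) o
    refine ⟨Q, h0, ?_, ?_⟩
    · have h3 : ((q : R) ^ s) ^ (finrank k (RO k 𝔪)) = (q : R) ^ (f * (P.1.natDegree * s)) := by
        rw [← pow_mul, hfr]
        congr 1
        ring
      rw [h3]
      exact h1
    · rw [h2, locFS_MG hq hk E b m o P (hρ P) σ hσ f]
      exact expand_pow_charpolyRev (p := p) _ (deg_ne P) (finrank_ne' G 𝔪)
        (inertiaDeg_pow (k := k) G hp.out hG 𝔪) hfr
  choose Q hQ0 hQ1 hQ2 using hloc
  have hQc : ∀ 𝔪, PowerSeries.constantCoeff (Q 𝔪 : PowerSeries R) = 1 := by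
    intro 𝔪
    rw [← PowerSeries.coeff_zero_eq_constantCoeff_apply, Polynomial.coeff_coe, hQ0]
  refine ⟨eulerProd (fun 𝔪 : MaximalSpectrum O => finrank k (RO k 𝔪))
    (fun 𝔪 => PowerSeries.expand (finrank k (RO k 𝔪)) (finrank_ne' G 𝔪)
      (Q 𝔪 : PowerSeries R)), fun P => (locS (MonoidHom.id K) q (tw K p f₀ (MG E b m o)) (ρ P)
        (P.1.natDegree * s)).charpolyRev, ?_, ?_, ?_⟩
  · rw [rescale_euler hfin, LO_eq G, ← eulerProd_mul hfin]
    · have h1 : (fun 𝔪 : MaximalSpectrum O => PowerSeries.expand (finrank k (RO k 𝔪))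
          (finrank_ne' G 𝔪) (fibG R χ (fibp (vO k 𝔪 E) (fun i => vO k 𝔪 (b i)) m)) *
            PowerSeries.rescale ((q : R) ^ s) (PowerSeries.expand (finrank k (RO k 𝔪))
              (finrank_ne' G 𝔪) (Q 𝔪 : PowerSeries R))) = fun _ => 1 := by
        funext 𝔪
        rw [rescale_expand, ← map_mul, hQ1, map_one]
      rw [h1]
      exact eulerProd_one
    · intro 𝔪
      apply expand_mod
      have h1 := congrArg PowerSeries.constantCoeff (hQ1 𝔪)
      rw [map_mul, map_one] at h1
      have h2 : PowerSeries.constantCoeff (PowerSeries.rescale (((q : R) ^ s) ^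
          (finrank k (RO k 𝔪))) (Q 𝔪 : PowerSeries R)) = 1 := by
        rw [← PowerSeries.coeff_zero_eq_constantCoeff_apply, PowerSeries.coeff_rescale, pow_zero,
          one_mul, PowerSeries.coeff_zero_eq_constantCoeff_apply, hQc]
      rwa [h2, mul_one] at h1
    · intro 𝔪
      rw [rescale_expand]
      apply expand_mod
      rw [← PowerSeries.coeff_zero_eq_constantCoeff_apply, PowerSeries.coeff_rescale, pow_zero,
          one_mul, PowerSeries.coeff_zero_eq_constantCoeff_apply, hQc]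
  · rw [map_eulerProd hfin]
    set φ : MI k → PowerSeries K := fun P => locFS (MonoidHom.id K) q s (tw K p f₀ (MG E b m o))
      (ρ P) P.1.natDegree (deg_ne P) with hφ
    have hφ1 : ∀ P : MI k, (PowerSeries.X : PowerSeries K) ^ P.1.natDegree ∣ φ P - 1 :=
      fun P => locFS_mod _ _ _ _ _ _ _
    have hpow : ∀ (P : MI k) (n : ℕ), (PowerSeries.X : PowerSeries K) ^ P.1.natDegree ∣
        φ P ^ n - 1 := by
      intro P n
      induction n with
      | zero => rw [pow_zero, sub_self]; exact dvd_zero _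
      | succ n ih =>
        rw [pow_succ]
        exact one_mod_mul ih (hφ1 P)
    have h1 : (fun 𝔪 : MaximalSpectrum O => PowerSeries.map π (PowerSeries.expand
        (finrank k (RO k 𝔪)) (finrank_ne' G 𝔪) (Q 𝔪 : PowerSeries R))) =
        fun 𝔪 => φ (pt (k := k) 𝔪) ^ (𝔪.asIdeal.inertiaDeg k[X]) := by
      funext 𝔪
      rw [PowerSeries.map_expand, ← Polynomial.polynomial_map_coe, hQ2]
    have hmod : ∀ 𝔪 : MaximalSpectrum O, (PowerSeries.X : PowerSeries K) ^
        (finrank k (RO k 𝔪)) ∣ φ (pt (k := k) 𝔪) ^ (𝔪.asIdeal.inertiaDeg k[X]) - 1 := by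
      intro 𝔪
      have h2 := congrFun h1 𝔪
      rw [← h2, PowerSeries.map_expand]
      apply expand_mod
      rw [← Polynomial.polynomial_map_coe, ← PowerSeries.coeff_zero_eq_constantCoeff_apply,
        Polynomial.coeff_coe, Polynomial.coeff_map, hQ0, map_one]
    have h3 : eulerProd (fun P : MI k => P.1.natDegree) (fun P => ∏ 𝔪 ∈
        (above_finite (O := O) G P).toFinset,
          φ (pt (k := k) 𝔪) ^ (𝔪.asIdeal.inertiaDeg k[X])) =
        eulerProd (fun 𝔪 : MaximalSpectrum O => finrank k (RO k 𝔪))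
          (fun 𝔪 => φ (pt (k := k) 𝔪) ^ (𝔪.asIdeal.inertiaDeg k[X])) := by
      refine eulerProd_fiber hfink hfin hmod
        (fun P => (above_finite (O := O) G P).toFinset) ?_ ?_ ?_
      · intro 𝔪
        refine ⟨pt (k := k) 𝔪, ?_⟩
        rw [Set.Finite.mem_toFinset]
        rfl
      · intro P P' 𝔪 h h'
        rw [Set.Finite.mem_toFinset] at h h'
        have e1 : minpoly k (vO k 𝔪 X) = P.1 := h
        have e2 : minpoly k (vO k 𝔪 X) = P'.1 := h'
        exact Subtype.ext (e1.symm.trans e2)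
      · intro P 𝔪 h
        rw [Set.Finite.mem_toFinset] at h
        have e1 : (pt (k := k) 𝔪).1 = P.1 := h
        show P.1.natDegree ≤ _
        rw [finrank_RO (k := k) G 𝔪, e1]
        exact Nat.le_mul_of_pos_right _ (inertiaDeg_pos (k := k) G)
    have h4 : (fun P : MI k => ∏ 𝔪 ∈ (above_finite (O := O) G P).toFinset,
          φ (pt (k := k) 𝔪) ^ (𝔪.asIdeal.inertiaDeg k[X])) =
            fun P => φ P ^ (Nat.card G / e P) := by
      funext P
      have e0 : ∀ 𝔪 ∈ (above_finite (O := O) G P).toFinset,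
          φ (pt (k := k) 𝔪) ^ (𝔪.asIdeal.inertiaDeg k[X]) =
            φ P ^ (𝔪.asIdeal.inertiaDeg k[X]) := by
        intro 𝔪 h
        rw [Set.Finite.mem_toFinset] at h
        have e1 : pt (k := k) 𝔪 = P := Subtype.ext h
        rw [e1]
      rw [Finset.prod_congr rfl e0, Finset.prod_pow_eq_pow_sum,
        (sum_inertiaDeg_ram (O := O) G P (e P) (fun 𝔪 h => he P 𝔪 h)).2]
    have hpP : ∀ P : MI k, P.1 ∣ E → φ P = 1 := fun P hE =>
      locFS_of_dvd hq hs E b m o P (hρ P) hE
    have h5' : eulerProd (fun P : MI k => P.1.natDegree) (fun P => φ P ^ (Nat.card G / e P)) *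
        ∏ P ∈ S, φ P ^ (Nat.card G - Nat.card G / e P) =
        (eulerProd (fun P : MI k => P.1.natDegree) φ) ^ (Nat.card G) := by
      have e1 := eulerProd_prod hfink (Finset.range (Nat.card G)) (fun _ P => φ P)
        (fun _ P => hφ1 P)
      simp only [Finset.prod_const, Finset.card_range] at e1
      rw [← e1, ← eulerProd_of_finset hfink
        (f := fun P => φ P ^ (Nat.card G - Nat.card G / e P)) (fun P => hpow P _) S ?_,
        ← eulerProd_mul hfink (fun P => hpow P _) (fun P => hpow P _)]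
      · congr 1
        funext P
        rw [← pow_add]
        congr 1
        exact Nat.add_sub_cancel' (Nat.div_le_self _ _)
      · intro P hP
        by_cases hE : P.1 ∣ E
        · rw [hpP P hE, one_pow]
        · rw [heS P hP hE, Nat.div_one, Nat.sub_self, pow_zero]
    have h6 := formula_modS (k := k) (K := K) (q := q) (m := 0) hs (by omega)
      (by rw [Nat.card_eq_fintype_card, hk]) (tw K p f₀ (MG E b m o)) (tw_per hq hk _)
      (fun j x y => (tw_deg (MG E b m o) j x y).trans_lt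
        ((natDegree_MG E hb hm o x y).trans_lt (by omega))) ρ hρ
    have h7 : ((mprod (fun j => kmat q 0 (tw K p f₀ (MG E b m o) j)) s).charpolyRev :
        PowerSeries K) = 1 := by
      unfold Matrix.charpolyRev
      rw [Matrix.det_isEmpty, Polynomial.coe_one]
    rw [h7, mul_one] at h6
    rw [h1, ← h3, h4]
    have h8 : ((∏ P ∈ S, (Polynomial.expand K P.1.natDegree ((locS (MonoidHom.id K) q
        (tw K p f₀ (MG E b m o)) (ρ P) (P.1.natDegree * s)).charpolyRev)) ^
        (Nat.card G - Nat.card G / e P) : K[X]) : PowerSeries K) =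
        ∏ P ∈ S, φ P ^ (Nat.card G - Nat.card G / e P) := by
      rw [← Polynomial.coeToPowerSeries.ringHom_apply, map_prod]
      refine Finset.prod_congr rfl fun P _ => ?_
      rw [Polynomial.coeToPowerSeries.ringHom_apply, Polynomial.coe_pow, Pool.Agent.Y709.Lay.coe_expand _ (deg_ne P)]
      rfl
    rw [h8, h5', hφ, h6, one_pow]
  · intro P
    have h1 := local_line π hu χ hχ hq hf₀ hk₀ hs hk h5 E b hm hmq hinv o P (hρ P)
    refine ⟨h1.1, ?_, ?_, h1.2⟩
    · have h2 := constantCoeff_charpolyRev (locS (MonoidHom.id K) q (tw K p f₀ (MG E b m o)) (ρ P)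
        (P.1.natDegree * s))
      rwa [← PowerSeries.coeff_zero_eq_constantCoeff_apply, Polynomial.coeff_coe] at h2
    · intro hE
      have h2 := locFS_of_dvd (K := K) hq hs E b m o P (hρ P) hE
      unfold locFS at h2
      rw [← Pool.Agent.Y709.Lay.coe_expand] at h2
      have h3 : Polynomial.expand K P.1.natDegree ((locS (MonoidHom.id K) q
        (tw K p f₀ (MG E b m o)) (ρ P) (P.1.natDegree * s)).charpolyRev) = 1 := by
        apply Polynomial.coe_injective
        rw [h2, Polynomial.coe_one]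
      exact (Polynomial.expand_injective (MI.deg_pos P)) (h3.trans (map_one _).symm)

end glob

end Pool.Agent.N876.KM
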