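import Pool.Agent.N876.KM.Chr

/-!
The value at one of the function of the inverse character and the integral polynomial of the fibre.
-/

set_option autoImplicit false
set_option linter.unusedSectionVars false

open Polynomial Module

namespace Pool.Agent.N876.KM

open Pool.Agent.W313.Hyp Pool.Agent.W343.BSD Pool.Agent.Y709 Pool.Agent.Y709.Gen
open Pool.Agent.Y709.Lay

section poly

variable {F : Type} [Field F] [Finite F] {κ : Type} [Fintype κ]

/-- the function of the fibre as a polynomial -/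
noncomputable def vpoly (ψ : MulChar F ℂ) (c : F) (b : κ → F) (a : κ → ℕ) : ℂ[X] :=
  ∑ j ∈ Finset.range (Fintype.card κ), C (monSum (psiG ψ c b a) j) * X ^ j

theorem coe_vpoly {ψ : MulChar F ℂ} (c : F) (b : κ → F) {a : κ → ℕ} (h0 : 0 < ∑ i, a i)
    (h : ψ ^ (∑ i, a i) ≠ 1) :
    ((vpoly ψ c b a : ℂ[X]) : PowerSeries ℂ) = PowerSeries.mk (monSum (psiG ψ c b a)) := by
  ext j
  rw [PowerSeries.coeff_mk, Polynomial.coeff_coe]
  unfold vpoly
  rw [finsetSum_coeff]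
  simp only [coeff_C_mul, coeff_X_pow, mul_ite, mul_one, mul_zero]
  rw [Finset.sum_ite_eq]
  split_ifs with hj
  · rfl
  · rw [Finset.mem_range, not_lt] at hj
    symm
    refine monSum_zero' c b h0 h (∏ l : κ, (X - C (b l)))
      (monic_prod_of_monic _ _ fun l _ => monic_X_sub_C _) ?_ ?_
    · intro i
      rw [eval_prod]
      refine Finset.prod_eq_zero (Finset.mem_univ i) ?_
      rw [eval_sub, eval_X, eval_C]
      exact sub_self _
    · rw [natDegree_prod_of_monic _ _ fun l _ => monic_X_sub_C _]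
      simp only [natDegree_X_sub_C]
      rw [Finset.sum_const, smul_eq_mul, mul_one, Finset.card_univ]
      exact hj

theorem eval_vpoly (ψ : MulChar F ℂ) (c : F) (b : κ → F) (a : κ → ℕ) :
    (vpoly ψ c b a).eval 1 = ∑ j ∈ Finset.range (Fintype.card κ), monSum (psiG ψ c b a) j := by
  unfold vpoly
  rw [eval_finsetSum]
  refine Finset.sum_congr rfl fun j _ => ?_
  rw [eval_mul, eval_C, eval_pow, eval_X, one_pow, mul_one]

theorem isIntegral_char (ψ : MulChar F ℂ) (x : F) : IsIntegral ℤ (ψ x) := by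
  by_cases hx : x = 0
  · rw [hx, MulChar.map_zero]
    exact isIntegral_zero
  · have hF : Fintype F := Fintype.ofFinite F
    have h1 : (ψ x) ^ (Fintype.card F - 1) = 1 := by
      rw [← map_pow, FiniteField.pow_card_sub_one_eq_one x hx, map_one]
    refine IsIntegral.of_pow (n := Fintype.card F - 1) ?_ ?_
    · have := Fintype.one_lt_card (α := F)
      omega
    · rw [h1]
      exact isIntegral_one

theorem isIntegral_vpoly (ψ : MulChar F ℂ) (c : F) (b : κ → F) (a : κ → ℕ) :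
    IsIntegral ℤ ((vpoly ψ c b a).eval 1) := by
  rw [eval_vpoly]
  refine IsIntegral.sum _ fun j _ => ?_
  unfold monSum
  refine IsIntegral.sum _ fun g _ => ?_
  unfold psiG
  exact isIntegral_char ψ _

end poly

section fib

variable {k F : Type} [Field k] [Finite k] [Field F] [Finite F] [Algebra k F]
  [FiniteDimensional k F] {κ : Type} [Fintype κ] {N : ℕ}

theorem chiN_pow_ne_one {χ : MulChar k ℂ} {n : ℕ} (h : χ ^ n ≠ 1) : (chiN F χ) ^ n ≠ 1 := by
  intro h1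
  apply h
  rw [chiN_pow] at h1
  refine MulChar.ext fun u => ?_
  obtain ⟨y, hy⟩ := FiniteField.unitsMap_norm_surjective k F u
  have h2 := congrArg (fun ψ : MulChar F ℂ => ψ (y : F)) h1
  simp only [MulChar.one_apply_coe, chiN_apply] at h2
  rw [MulChar.one_apply_coe, ← h2, ← hy]
  rfl

/-- the integral polynomial of the fibre is the product of the functions of the characters -/
theorem eval_prod_fib (c : F) (b : κ → F) {a : κ → ℕ} (h0 : 0 < ∑ i, a i)
    (hN : ¬ N ∣ ∑ i, a i) (H : ℤ[X])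
    (hH : (∏ᶠ (χ : MulChar k ℂ) (_ : orderOf χ = N), fibG ℂ χ (fibp c b a)) *
      ((H.map (Int.castRingHom ℂ) : ℂ[X]) : PowerSeries ℂ) = 1) (χ : MulChar k ℂ)
    (hχ : orderOf χ = N) :
    ∃ x : ℂ, IsIntegral ℤ x ∧ ((H.eval 1 : ℤ) : ℂ) =
      (∑ j ∈ Finset.range (Fintype.card κ),
        monSum (psiG (chiN F χ) ((-1) ^ (∑ i, a i) * c) b a) j) * x := by
  classical
  have hfin : {χ : MulChar k ℂ | orderOf χ = N}.Finite := Set.toFinite _
  set T := hfin.toFinset with hT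
  have hmem : ∀ χ : MulChar k ℂ, χ ∈ T ↔ orderOf χ = N := fun χ => by
    rw [hT, Set.Finite.mem_toFinset]
    rfl
  have h1 : (∏ᶠ (χ : MulChar k ℂ) (_ : orderOf χ = N), fibG ℂ χ (fibp c b a)) =
      ∏ χ ∈ T, fibG ℂ χ (fibp c b a) := by
    have h2 := finprod_mem_eq_finite_toFinset_prod (fun χ : MulChar k ℂ =>
      fibG ℂ χ (fibp c b a)) hfin
    exact h2
  rw [h1] at hH
  have hne : ∀ χ : MulChar k ℂ, orderOf χ = N → (chiN F χ) ^ (∑ i, a i) ≠ 1 := by
    intro χ hχ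
    apply chiN_pow_ne_one
    intro h2
    exact hN (hχ ▸ orderOf_dvd_of_pow_eq_one h2)
  set v : MulChar k ℂ → ℂ[X] := fun χ => vpoly (chiN F χ) ((-1) ^ (∑ i, a i) * c) b a with hv
  have h3 : ∀ χ ∈ T, fibG ℂ χ (fibp c b a) * ((v χ : ℂ[X]) : PowerSeries ℂ) = 1 := by
    intro χ hχ
    rw [hv]
    dsimp only
    rw [coe_vpoly _ b h0 (hne χ ((hmem χ).1 hχ))]
    exact fibG_eq (R := ℂ) χ c b a
  have h4 : (∏ χ ∈ T, fibG ℂ χ (fibp c b a)) * ((∏ χ ∈ T, v χ : ℂ[X]) : PowerSeries ℂ) = 1 := by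
    rw [← Polynomial.coeToPowerSeries.ringHom_apply, map_prod, ← Finset.prod_mul_distrib]
    exact Finset.prod_eq_one h3
  have h5 : H.map (Int.castRingHom ℂ) = ∏ χ ∈ T, v χ := by
    apply Polynomial.coe_injective
    calc ((H.map (Int.castRingHom ℂ) : ℂ[X]) : PowerSeries ℂ) =
          ((∏ χ ∈ T, fibG ℂ χ (fibp c b a)) * ((∏ χ ∈ T, v χ : ℂ[X]) : PowerSeries ℂ)) *
            ((H.map (Int.castRingHom ℂ) : ℂ[X]) : PowerSeries ℂ) := by rw [h4, one_mul]
      _ = ((∏ χ ∈ T, v χ : ℂ[X]) : PowerSeries ℂ) * ((∏ χ ∈ T, fibG ℂ χ (fibp c b a)) *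
            ((H.map (Int.castRingHom ℂ) : ℂ[X]) : PowerSeries ℂ)) := by ring
      _ = _ := by rw [hH, mul_one]
  have h6 : ((H.eval 1 : ℤ) : ℂ) = ∏ χ ∈ T, (v χ).eval 1 := by
    rw [← eval_prod, ← h5, eval_map, ← eq_intCast (Int.castRingHom ℂ), ← map_one (Int.castRingHom ℂ),
      eval₂_at_apply]
  refine ⟨∏ χ' ∈ T.erase χ, (v χ').eval 1, ?_, ?_⟩
  · exact IsIntegral.prod _ fun χ' _ => isIntegral_vpoly _ _ _ _
  · rw [h6, ← Finset.mul_prod_erase T _ ((hmem χ).2 hχ), ← eval_vpoly]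

end fib

section psirel

variable {k₀ k : Type} [Field k₀] [Fintype k₀] [Field k] [Finite k] [Algebra k₀ k] {q N : ℕ}

theorem psi_rel {F : Type} [Field F] [Algebra k F] [Algebra k₀ F] [IsScalarTower k₀ k F]
    [FiniteDimensional k F] {χ' : MulChar k ℂ} {χ ω : MulChar k₀ ℂ}
    (h : ∀ u : k, χ' u = χ (Algebra.norm k₀ u)) {j : ℕ}
    (hrel : ∀ (u : k₀) (a : ℕ), ¬ N ∣ a → χ u ^ a = ω u ^ ((j * a % N) * ((q - 1) / N)))
    {Λ κ : Type} [Fintype Λ] [Fintype κ] (β : Λ → F) (bb : Λ → ℕ) (hbb : ∀ l, ¬ N ∣ bb l)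
    (y : κ → F) (a : κ → ℕ) (ha : ∀ i, ¬ N ∣ a i) (d : ℕ) :
    χ' (Algebra.norm k (((-1) ^ (∑ i, a i) * ∏ l, β l ^ bb l) ^ d * ∏ i, y i ^ a i)) =
      ω (Algebra.norm k₀ (((-1) ^ (∑ i, (j * a i % N) * ((q - 1) / N)) *
        ∏ l, β l ^ ((j * bb l % N) * ((q - 1) / N))) ^ d *
          ∏ i, y i ^ ((j * a i % N) * ((q - 1) / N)))) := by
  have e1 := prod_rel (F := F) h hrel (fun _ : κ => (-1 : F)) a ha
  have e2 := prod_rel (F := F) h hrel β bb hbb
  have e3 := prod_rel (F := F) h hrel y a ha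
  rw [Finset.prod_pow_eq_pow_sum, Finset.prod_pow_eq_pow_sum] at e1
  simp only [map_mul, map_pow] at e1 e2 e3 ⊢
  rw [e1, e2, e3]

end psirel

section val

variable {k₀ k R K : Type} [Field k₀] [Fintype k₀] [Field k] [Fintype k] [Algebra k₀ k]
  [CommRing R] [IsDomain R] [CharZero R] [Field K]
  (ι : R →+* ℂ) (hι : Function.Injective ι) (π : R →+* K)
  (hint : ∀ x : ℂ, IsIntegral ℤ x → ∃ r, ι r = x)
  {κ Λ : Type} [Fintype κ] [DecidableEq κ] [Fintype Λ] {q N : ℕ}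

theorem monSum_map {F R A : Type} [Field F] [Finite F] [CommRing R] [CommRing A] (ι : R →+* A)
    (ψ : F[X] → R) (n : ℕ) : ι (monSum ψ n) = monSum (fun g => ι (ψ g)) n := by
  unfold monSum
  exact map_sum ι _ _

/-- the integral polynomial of the fibre over a point `𝔭` of the line is prime to `p` at one -/
def NonAn (k : Type) [Field k] (p N : ℕ) {κ : Type} [Fintype κ] (B : k[X]) (b : κ → k[X])
    (a : κ → ℕ) (𝔭 : MaximalSpectrum k[X]) : Prop :=
  ∃ H : ℤ[X], ¬ (p : ℤ) ∣ H.eval 1 ∧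
    (∏ᶠ (χ : MulChar k ℂ) (_ : orderOf χ = N),
      fibG ℂ χ (fibp (vO k 𝔭 B) (fun i => vO k 𝔭 (b i)) a)) *
      ((H.map (Int.castRingHom ℂ) : ℂ[X]) : PowerSeries ℂ) = 1

include hι hint in
theorem valP_ne {p : ℕ} [Fact p.Prime] [CharP K p] (ω : MulChar k₀ R) {χ' : MulChar k ℂ}
    (hχ' : orderOf χ' = N) {χ : MulChar k₀ ℂ} (h : ∀ u : k, χ' u = χ (Algebra.norm k₀ u)) {j : ℕ}
    (hrel : ∀ (u : k₀) (a : ℕ), ¬ N ∣ a →
      χ u ^ a = (ω.ringHomComp ι) u ^ ((j * a % N) * ((q - 1) / N)))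
    (coef : Λ → k[X]) (bb : Λ → ℕ) (hbb : ∀ l, ¬ N ∣ bb l)
    (b : κ → k[X]) (a : κ → ℕ) (ha : ∀ i, ¬ N ∣ a i) (h0 : 0 < ∑ i, a i)
    (hN : ¬ N ∣ ∑ i, a i) (P : MI k)
    (hP : NonAn k p N (∏ l, coef l ^ bb l) b a (mP P)) :
    π (valP ω (∏ l, coef l ^ ((j * bb l % N) * ((q - 1) / N))) b
      (fun i => (j * a i % N) * ((q - 1) / N)) P) ≠ 0 := by
  classical
  obtain ⟨H, hH1, hH⟩ := hP
  have hF0 : Finite (RO k (mP P)) := Module.finite_of_finite k
  have hfd0 : FiniteDimensional k₀ (RO k (mP P)) := FiniteDimensional.trans k₀ k (RO k (mP P))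
  have hinv : orderOf χ'⁻¹ = N := by rw [orderOf_inv, hχ']
  obtain ⟨x, hx, hxe⟩ := eval_prod_fib (k := k) (F := RO k (mP P)) _ _ h0 hN H hH χ'⁻¹ hinv
  obtain ⟨r, hr⟩ := hint x hx
  have hval : ι (valP ω (∏ l, coef l ^ ((j * bb l % N) * ((q - 1) / N))) b
      (fun i => (j * a i % N) * ((q - 1) / N)) P) = ∑ n ∈ Finset.range (Fintype.card κ),
        monSum (psiG (chiN (RO k (mP P)) χ'⁻¹) ((-1) ^ (∑ i, a i) *
          vO k (mP P) (∏ l, coef l ^ bb l)) (fun i => vO k (mP P) (b i)) a) n := by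
    unfold valP
    rw [map_sum]
    refine Finset.sum_congr rfl fun n _ => ?_
    rw [monSum_map]
    congr 1
    funext g
    unfold psiG Pool.Agent.Y709.Gen.mp
    have e1 := psi_rel (F := RO k (mP P)) h hrel (fun l => vO k (mP P) (coef l)) bb hbb
      (fun i => g.eval (vO k (mP P) (b i))) a ha g.natDegree
    rw [chiN_apply, MulChar.inv_apply_eq_inv', chiN_inv, chiN_apply]
    have e2 : ∀ u : k₀, ι (ω⁻¹ u) = ((ω.ringHomComp ι) u)⁻¹ := by
      intro u
      rw [← MulChar.inv_apply_eq_inv', MulChar.ringHomComp_inv]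
      rfl
    rw [e2]
    congr 1
    simp only [map_prod, map_pow] at e1 ⊢
    rw [← e1]
  have h1 : ((H.eval 1 : ℤ) : R) = valP ω (∏ l, coef l ^ ((j * bb l % N) * ((q - 1) / N))) b
      (fun i => (j * a i % N) * ((q - 1) / N)) P * r := by
    apply hι
    rw [map_intCast, map_mul, hval, hr]
    exact hxe
  intro h2
  have h3 := congrArg π h1
  rw [map_intCast, map_mul, h2, zero_mul, CharP.intCast_eq_zero_iff K p] at h3
  exact hH1 h3

end val

end Pool.Agent.N876.KM
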